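import Mathlib
import Pool.Agent.GR.Flow

/-!
# Flows of compactly supported time-dependent vector fields
-/

open Topology Filter Set
open scoped ContDiff NNReal

namespace Pool.Agent.V11199.HP

variable {E : Type} [NormedAddCommGroup E] [NormedSpace ℝ E] [CompleteSpace E]

/-- A smooth compactly supported time-dependent vector field generates a smooth isotopy, and its
integral curves over `[0, 1]` are unique. -/
theorem exists_isotopy {X : ℝ × E → E} (hX : ContDiff ℝ ∞ X) (hc : HasCompactSupport X) :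
    ∃ F G : ℝ → E → E, ContDiff ℝ ∞ (fun p : ℝ × E => F p.1 p.2) ∧
      ContDiff ℝ ∞ (fun p : ℝ × E => G p.1 p.2) ∧ (∀ x, F 0 x = x) ∧
      (∀ t x, HasDerivAt (fun t => F t x) (X (t, F t x)) t) ∧
      (∀ t x, G t (F t x) = x) ∧ (∀ t x, F t (G t x) = x) ∧
      ∀ γ : ℝ → E, (∀ t ∈ Icc (0 : ℝ) 1, HasDerivWithinAt γ (X (t, γ t)) (Icc 0 1) t) →
        ∀ t ∈ Icc (0 : ℝ) 1, γ t = F t (γ 0) := by
  obtain ⟨K, hK⟩ := hX.lipschitzWith_of_hasCompactSupport hc (by simp)
  obtain ⟨M, hM⟩ := hc.exists_bound_of_continuous hX.continuous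
  let Y : C(ℝ × E, ℝ × E) := ⟨fun p => (1, X p), continuous_const.prodMk hX.continuous⟩
  have hY : ContDiff ℝ ∞ Y := contDiff_const.prodMk hX
  have hYK : LipschitzWith K Y := by
    refine LipschitzWith.of_dist_le_mul fun p q => ?_
    have h1 : dist (Y p) (Y q) = dist (X p) (X q) := by
      rw [Prod.dist_eq]
      change max (dist (1 : ℝ) 1) (dist (X p) (X q)) = _
      rw [dist_self]
      exact max_eq_right dist_nonneg
    rw [h1]
    exact hK.dist_le_mul p q
  have hYM : ∀ p, ‖Y p‖ ≤ ((1 ⊔ Real.toNNReal M : ℝ≥0) : ℝ) := by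
    intro p
    change ‖((1 : ℝ), X p)‖ ≤ _
    rw [Prod.norm_def]
    refine max_le ?_ ?_
    · simp
    · exact (hM p).trans ((Real.le_coe_toNNReal M).trans (by
        exact_mod_cast le_sup_right))
  choose g h0 h1 using fun p => Pool.Agent.GR.Flow.exists_solution hYK hYM p
  have hfl : Pool.Agent.GR.Flow.IsFlowOf Y (fun t p => g p t) := ⟨h0, h1⟩
  have hsm : ContDiff ℝ ∞ (fun q : ℝ × (ℝ × E) => g q.2 q.1) := by
    rw [contDiff_infty]
    intro m
    have key : ∀ m : ℕ, m ≠ 0 → ContDiff ℝ m (fun q : ℝ × (ℝ × E) => g q.2 q.1) := by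
      intro m hm
      exact Pool.Agent.GR.Flow.contDiff_flow hm (hY.of_le (by exact_mod_cast le_top)) hYK hfl
    exact (key (m + 1) (by omega)).of_le (by exact_mod_cast Nat.le_succ m)
  have hadd : ∀ s t p, g p (s + t) = g (g p t) s := fun s t p => hfl.add hYK s t p
  have hfst : ∀ p t, (g p t).1 = p.1 + t := by
    intro p t
    have hd : ∀ t, HasDerivAt (fun t => (g p t).1 - t) 0 t := by
      intro t
      have h2 : HasDerivAt (fun t => (g p t).1) (1 : ℝ) t :=
        (hasFDerivAt_fst (𝕜 := ℝ) (E := ℝ) (F := E) (p := g p t)).comp_hasDerivAt t (h1 p t)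
      have := h2.sub (hasDerivAt_id t)
      rw [sub_self] at this
      exact this
    have hconst := is_const_of_deriv_eq_zero (f := fun t => (g p t).1 - t)
      (fun t => (hd t).differentiableAt) (fun t => (hd t).deriv) t 0
    simp only [h0] at hconst
    linarith
  refine ⟨fun t x => (g (0, x) t).2, fun t y => (g (t, y) (-t)).2, ?_, ?_, ?_, ?_, ?_, ?_, ?_⟩
  · have h2 : ContDiff ℝ ∞ (fun p : ℝ × E => (p.1, ((0 : ℝ), p.2))) :=
      contDiff_fst.prodMk (contDiff_const.prodMk contDiff_snd)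
    exact contDiff_snd.comp (hsm.comp h2)
  · have h2 : ContDiff ℝ ∞ (fun p : ℝ × E => (-p.1, (p.1, p.2))) :=
      contDiff_fst.neg.prodMk (contDiff_fst.prodMk contDiff_snd)
    exact contDiff_snd.comp (hsm.comp h2)
  · intro x
    simp only [h0]
  · intro t x
    have h3 : g (0, x) t = (t, (g (0, x) t).2) := Prod.ext (by rw [hfst]; simp) rfl
    have h2 : HasDerivAt (fun t => (g (0, x) t).2) (X (g (0, x) t)) t :=
      (hasFDerivAt_snd (𝕜 := ℝ) (E := ℝ) (F := E) (p := g (0, x) t)).comp_hasDerivAt t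
        (h1 (0, x) t)
    rw [h3] at h2
    exact h2
  · intro t x
    have h3 : g (0, x) t = (t, (g (0, x) t).2) := Prod.ext (by rw [hfst]; simp) rfl
    change (g (t, (g (0, x) t).2) (-t)).2 = x
    rw [← h3, ← hadd]
    simp [h0]
  · intro t y
    have h3 : g (t, y) (-t) = (0, (g (t, y) (-t)).2) := Prod.ext (by rw [hfst]; simp) rfl
    change (g (0, (g (t, y) (-t)).2) t).2 = y
    rw [← h3, ← hadd]
    simp [h0]
  · intro γ hγ t ht
    have hγc : ContinuousOn γ (Icc 0 1) := fun t ht => (hγ t ht).continuousWithinAt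
    have hu := ODE_solution_unique_of_mem_Icc_right (v := fun _ => (Y : ℝ × E → ℝ × E))
      (s := fun _ => univ) (K := K) (f := fun t => (t, γ t)) (g := fun t => g (0, γ 0) t)
      (a := 0) (b := 1) (fun _ _ => hYK.lipschitzOnWith)
      (continuousOn_id.prodMk hγc)
      (fun t ht => by
        have h2 := (hγ t ⟨ht.1, ht.2.le⟩).mono_of_mem_nhdsWithin
          (Icc_mem_nhdsGE_of_mem ht)
        exact (hasDerivWithinAt_id t _).prodMk h2)
      (fun _ _ => trivial)
      (fun t _ => (h1 (0, γ 0) t).continuousAt.continuousWithinAt)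
      (fun t _ => (h1 (0, γ 0) t).hasDerivWithinAt)
      (fun _ _ => trivial)
      (by rw [h0])
    have h3 := hu ht
    exact congrArg Prod.snd h3

/-- The variational equation. -/
theorem hasDerivAt_fderiv {X : ℝ × E → E} (hX : ContDiff ℝ ∞ X) {F : ℝ → E → E}
    (hF : ContDiff ℝ ∞ (fun p : ℝ × E => F p.1 p.2))
    (hd : ∀ t x, HasDerivAt (fun t => F t x) (X (t, F t x)) t) (t : ℝ) (x v : E) :
    HasDerivAt (fun t => fderiv ℝ (F t) x v)
      (fderiv ℝ (fun y => X (t, y)) (F t x) (fderiv ℝ (F t) x v)) t := by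
  set Φ : ℝ × E → E := fun p => F p.1 p.2 with hΦ
  have hΦd : ∀ p, HasFDerivAt Φ (fderiv ℝ Φ p) p := fun p =>
    (hF.differentiable (by simp) p).hasFDerivAt
  have hD : ContDiff ℝ ∞ (fderiv ℝ Φ) := hF.fderiv_right (m := ∞) (by simp)
  have hDd : ∀ p, HasFDerivAt (fderiv ℝ Φ) (fderiv ℝ (fderiv ℝ Φ) p) p := fun p =>
    (hD.differentiable (by simp) p).hasFDerivAt
  -- partial derivatives
  have hx : ∀ t x, fderiv ℝ (F t) x = (fderiv ℝ Φ (t, x)).comp (ContinuousLinearMap.inr ℝ ℝ E) := by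
    intro t x
    have h1 : HasFDerivAt (fun y : E => (t, y)) (ContinuousLinearMap.inr ℝ ℝ E) x :=
      hasFDerivAt_prodMk_right t x
    exact ((hΦd (t, x)).comp x h1).fderiv
  have ht : ∀ p : ℝ × E, fderiv ℝ Φ p (1, 0) = X (p.1, Φ p) := by
    intro p
    have h1 : HasDerivAt (fun s : ℝ => (s, p.2)) ((1 : ℝ), (0 : E)) p.1 :=
      (hasDerivAt_id p.1).prodMk (hasDerivAt_const p.1 p.2)
    have h2 := (hΦd (p.1, p.2)).comp_hasDerivAt p.1 h1
    exact h2.unique (hd p.1 p.2)
  have hsymm : IsSymmSndFDerivAt ℝ Φ (t, x) :=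
    (hF.contDiffAt (x := (t, x))).isSymmSndFDerivAt (by
      rw [minSmoothness_of_isRCLikeNormedField]
      exact WithTop.coe_le_coe.2 (le_top : (2 : ℕ∞) ≤ ⊤))
  -- the derivative in `t` of `fderiv Φ (t, x) (0, v)`
  have h1 : HasDerivAt (fun s : ℝ => (s, x)) ((1 : ℝ), (0 : E)) t :=
    (hasDerivAt_id t).prodMk (hasDerivAt_const t x)
  have h2 : HasDerivAt (fun s : ℝ => fderiv ℝ Φ (s, x)) (fderiv ℝ (fderiv ℝ Φ) (t, x) (1, 0)) t :=
    (hDd (t, x)).comp_hasDerivAt t h1
  have h3 : HasDerivAt (fun s : ℝ => fderiv ℝ Φ (s, x) (0, v))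
      (fderiv ℝ (fderiv ℝ Φ) (t, x) (1, 0) (0, v)) t := by
    have := h2.clm_apply (hasDerivAt_const t ((0 : ℝ), v))
    simpa using this
  have h4 : (fun s : ℝ => fderiv ℝ (F s) x v) = fun s : ℝ => fderiv ℝ Φ (s, x) (0, v) := by
    funext s
    rw [hx]
    simp
  rw [h4]
  have h5 : fderiv ℝ (fderiv ℝ Φ) (t, x) (1, 0) (0, v)
      = fderiv ℝ (fun y => X (t, y)) (F t x) (fderiv ℝ (F t) x v) := by
    rw [hsymm.eq (1, 0) (0, v)]
    have h6 : HasFDerivAt (fun p => fderiv ℝ Φ p (1, 0))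
        ((ContinuousLinearMap.apply ℝ E ((1 : ℝ), (0 : E))).comp
          (fderiv ℝ (fderiv ℝ Φ) (t, x))) (t, x) :=
      (ContinuousLinearMap.apply ℝ E ((1 : ℝ), (0 : E))).hasFDerivAt.comp (t, x) (hDd (t, x))
    have h7 : HasFDerivAt (fun y : E => fderiv ℝ Φ (t, y) (1, 0))
        (((ContinuousLinearMap.apply ℝ E ((1 : ℝ), (0 : E))).comp
          (fderiv ℝ (fderiv ℝ Φ) (t, x))).comp (ContinuousLinearMap.inr ℝ ℝ E)) x :=
      h6.comp x (hasFDerivAt_prodMk_right t x)
    have h8 : (fun y : E => fderiv ℝ Φ (t, y) (1, 0)) = fun y => X (t, F t y) := by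
      funext y
      rw [ht]
    rw [h8] at h7
    have h9 : HasFDerivAt (F t) (fderiv ℝ (F t) x) x := by
      rw [hx]
      exact (hΦd (t, x)).comp x (hasFDerivAt_prodMk_right t x)
    have h10 : HasFDerivAt (fun y => X (t, y)) (fderiv ℝ (fun y => X (t, y)) (F t x)) (F t x) := by
      have : ContDiff ℝ ∞ (fun y => X (t, y)) := hX.comp (contDiff_const.prodMk contDiff_id)
      exact (this.differentiable (by simp) _).hasFDerivAt
    have h11 := h7.unique (h10.comp x h9)
    have h12 := congrArg (fun L : E →L[ℝ] E => L v) h11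
    simpa using h12
  rw [← h5]
  exact h3

end Pool.Agent.V11199.HP
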