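import Mathlib
import Pool.Agent.V11199.HP.Flow

/-!
# The standard symplectic `ℝ⁶ = ℂ³` and its compactly supported Hamiltonian diffeomorphisms
-/

open Topology Filter Set
open scoped ContDiff NNReal

namespace Pool.Agent.V11199.HP

noncomputable section

/-- The space `ℝ⁶ = ℂ × ℂ × ℂ`. -/
abbrev E : Type := ℂ × ℂ × ℂ

/-- The standard symplectic form `∑ dx_k ∧ dy_k` on `ℂ × ℂ × ℂ`, with `z_k = x_k + i y_k`. -/
def omega (a b : E) : ℝ :=
  (a.1.re * b.1.im - a.1.im * b.1.re) + (a.2.1.re * b.2.1.im - a.2.1.im * b.2.1.re)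
    + (a.2.2.re * b.2.2.im - a.2.2.im * b.2.2.re)

/-- `φ` is the time-`1` map of the Hamiltonian isotopy `Φ` of a smooth Hamiltonian `H` on
`[0, 1] × ℝ⁶` whose support lies over a compact set. -/
def IsHam (φ : E → E) : Prop :=
  ∃ (H : ℝ × E → ℝ) (Φ : ℝ → E → E), ContDiff ℝ ∞ H ∧
    (∃ K₀ : Set E, IsCompact K₀ ∧ ∀ t ∈ Icc (0 : ℝ) 1, ∀ x ∉ K₀, H (t, x) = 0) ∧
    (∀ x, Φ 0 x = x) ∧
    (∀ x, ∀ t ∈ Icc (0 : ℝ) 1, ∃ v, HasDerivWithinAt (fun s => Φ s x) v (Icc 0 1) t ∧
      ∀ w, omega v w = fderiv ℝ (fun y => H (t, y)) (Φ t x) w) ∧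
    φ = Φ 1

/-- `omega` as a bilinear map. -/
def omegaB : E →ₗ[ℝ] E →ₗ[ℝ] ℝ :=
  LinearMap.mk₂ ℝ omega
    (by intro a b c; simp only [omega, Prod.fst_add, Prod.snd_add, Complex.add_re,
          Complex.add_im]; ring)
    (by intro a b c; simp only [omega, Prod.smul_fst, Prod.smul_snd, Complex.smul_re,
          Complex.smul_im, smul_eq_mul]; ring)
    (by intro a b c; simp only [omega, Prod.fst_add, Prod.snd_add, Complex.add_re,
          Complex.add_im]; ring)
    (by intro a b c; simp only [omega, Prod.smul_fst, Prod.smul_snd, Complex.smul_re,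
          Complex.smul_im, smul_eq_mul]; ring)

/-- `omega` as a continuous bilinear map. -/
def omegaL : E →L[ℝ] E →L[ℝ] ℝ := omegaB.toContinuousBilinearMap

@[simp] theorem omegaL_apply (a b : E) : omegaL a b = omega a b := rfl

theorem omega_swap (a b : E) : omega a b = -omega b a := by
  simp only [omega]; ring

/-- The Hamiltonian vector of a covector. -/
def dualVec (l : E →L[ℝ] ℝ) : E :=
  (⟨l (Complex.I, 0, 0), -l (1, 0, 0)⟩, ⟨l (0, Complex.I, 0), -l (0, 1, 0)⟩,
    ⟨l (0, 0, Complex.I), -l (0, 0, 1)⟩)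

theorem omega_dualVec (l : E →L[ℝ] ℝ) (w : E) : omega (dualVec l) w = l w := by
  have h : w = w.1.re • ((1, 0, 0) : E) + w.1.im • ((Complex.I, 0, 0) : E)
      + w.2.1.re • ((0, 1, 0) : E) + w.2.1.im • ((0, Complex.I, 0) : E)
      + w.2.2.re • ((0, 0, 1) : E) + w.2.2.im • ((0, 0, Complex.I) : E) := by
    ext <;> simp
  conv_rhs => rw [h]
  simp only [map_add, map_smul, smul_eq_mul, omega, dualVec]
  ring

theorem omega_inj {a b : E} (h : ∀ w, omega a w = omega b w) : a = b := by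
  have h1 := h (Complex.I, 0, 0)
  have h2 := h (1, 0, 0)
  have h3 := h (0, Complex.I, 0)
  have h4 := h (0, 1, 0)
  have h5 := h (0, 0, Complex.I)
  have h6 := h (0, 0, 1)
  simp [omega] at h1 h2 h3 h4 h5 h6
  exact Prod.ext (Complex.ext h1 h2) (Prod.ext (Complex.ext h3 h4) (Complex.ext h5 h6))

/-- `dualVec` as a continuous linear map. -/
def dualVecL : (E →L[ℝ] ℝ) →L[ℝ] E :=
  LinearMap.toContinuousLinearMap
    { toFun := dualVec
      map_add' := by
        intro a b
        refine Prod.ext (Complex.ext ?_ ?_) (Prod.ext (Complex.ext ?_ ?_) (Complex.ext ?_ ?_)) <;>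
          simp [dualVec] <;> ring
      map_smul' := by
        intro a b
        refine Prod.ext (Complex.ext ?_ ?_) (Prod.ext (Complex.ext ?_ ?_) (Complex.ext ?_ ?_)) <;>
          simp [dualVec] }

@[simp] theorem dualVecL_apply (l : E →L[ℝ] ℝ) : dualVecL l = dualVec l := rfl

/-- A smooth symplectic self-map. -/
def Symp (ψ : E → E) : Prop :=
  ∀ x v w, omega (fderiv ℝ ψ x v) (fderiv ℝ ψ x w) = omega v w

theorem Symp.comp {ψ χ : E → E} (hψ : Symp ψ) (hχ : Symp χ) (dψ : ContDiff ℝ ∞ ψ)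
    (dχ : ContDiff ℝ ∞ χ) : Symp (ψ ∘ χ) := by
  intro x v w
  have h : fderiv ℝ (ψ ∘ χ) x = (fderiv ℝ ψ (χ x)).comp (fderiv ℝ χ x) :=
    ((dψ.differentiable (by simp) (χ x)).hasFDerivAt.comp x
      (dχ.differentiable (by simp) x).hasFDerivAt).fderiv
  rw [h]
  simp only [ContinuousLinearMap.comp_apply]
  rw [hψ, hχ]

theorem Symp.inv {ψ χ : E → E} (hψ : Symp ψ) (dψ : ContDiff ℝ ∞ ψ)
    (dχ : ContDiff ℝ ∞ χ) (h : ∀ x, ψ (χ x) = x) : Symp χ := by
  intro x v w
  have h1 : fderiv ℝ (ψ ∘ χ) x = (fderiv ℝ ψ (χ x)).comp (fderiv ℝ χ x) :=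
    ((dψ.differentiable (by simp) (χ x)).hasFDerivAt.comp x
      (dχ.differentiable (by simp) x).hasFDerivAt).fderiv
  have h2 : ψ ∘ χ = id := funext h
  rw [h2, fderiv_id] at h1
  have h3 : ∀ v, fderiv ℝ ψ (χ x) (fderiv ℝ χ x v) = v := fun v => by
    have := congrArg (fun L : E →L[ℝ] E => L v) h1
    simpa using this.symm
  rw [← hψ (χ x), h3, h3]

/-- A Hamiltonian diffeomorphism is a symplectic diffeomorphism. -/
theorem IsHam.exists_inv {φ : E → E} (h : IsHam φ) :
    ∃ G : E → E, ContDiff ℝ ∞ φ ∧ ContDiff ℝ ∞ G ∧ (∀ x, G (φ x) = x) ∧ (∀ x, φ (G x) = x) ∧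
      Symp φ ∧ Symp G := by
  obtain ⟨H, Φ, hH, ⟨K₀, hK₀, hK₀'⟩, hΦ0, hΦ, rfl⟩ := h
  -- cut off
  obtain ⟨R, hR⟩ := hK₀.isBounded.subset_closedBall (0 : E)
  let b : ContDiffBump (0 : ℝ × E) := ⟨max R 1, max R 1 + 1, by positivity, by linarith⟩
  let H' : ℝ × E → ℝ := fun p => b p * H p
  have hH' : ContDiff ℝ ∞ H' := b.contDiff.mul hH
  have hHc : HasCompactSupport H' := b.hasCompactSupport.mul_right
  have hHH : ∀ t ∈ Icc (0 : ℝ) 1, ∀ x, H' (t, x) = H (t, x) := by
    intro t ht x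
    by_cases hx : x ∈ K₀
    · have h1 : ‖x‖ ≤ R := by simpa using hR hx
      have h2 : ((t, x) : ℝ × E) ∈ Metric.closedBall (0 : ℝ × E) b.rIn := by
        rw [mem_closedBall_zero_iff, Prod.norm_def]
        refine max_le ?_ ?_
        · rw [Real.norm_eq_abs, abs_of_nonneg ht.1]
          exact ht.2.trans (le_max_right _ _)
        · exact h1.trans (le_max_left _ _)
      change b (t, x) * H (t, x) = _
      rw [b.one_of_mem_closedBall h2, one_mul]
    · change b (t, x) * H (t, x) = _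
      rw [hK₀' t ht x hx, mul_zero]
  let X : ℝ × E → E := fun p => dualVecL ((fderiv ℝ H' p).comp (ContinuousLinearMap.inr ℝ ℝ E))
  have hD : ContDiff ℝ ∞ (fderiv ℝ H') := hH'.fderiv_right (m := ∞) (by simp)
  have hX : ContDiff ℝ ∞ X := dualVecL.contDiff.comp (hD.clm_comp contDiff_const)
  have hXc : HasCompactSupport X := by
    have h1 : HasCompactSupport (fderiv ℝ H') := hHc.fderiv (𝕜 := ℝ)
    exact h1.comp_left (g := fun L : (ℝ × E) →L[ℝ] ℝ =>
      dualVecL (L.comp (ContinuousLinearMap.inr ℝ ℝ E)))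
      (by rw [ContinuousLinearMap.zero_comp, map_zero])
  have hpart : ∀ t x, HasFDerivAt (fun y => H' (t, y))
      ((fderiv ℝ H' (t, x)).comp (ContinuousLinearMap.inr ℝ ℝ E)) x := fun t x =>
    (hH'.differentiable (by simp) (t, x)).hasFDerivAt.comp x (hasFDerivAt_prodMk_right t x)
  obtain ⟨F, G, hF, hG, hF0, hFd, hGF, hFG, huniq⟩ := exists_isotopy hX hXc
  have hΦF : Φ 1 = F 1 := by
    funext x
    have := huniq (fun t => Φ t x) (fun t ht => by
      obtain ⟨v, hv, hvw⟩ := hΦ x t ht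
      have h1 : v = X (t, Φ t x) := by
        apply omega_inj
        intro w
        rw [hvw w]
        change _ = omega (dualVec _) w
        rw [omega_dualVec, ← (hpart t (Φ t x)).fderiv]
        have h2 : (fun y => H (t, y)) = fun y => H' (t, y) := funext fun y => (hHH t ht y).symm
        rw [h2]
      rw [← h1]
      exact hv) 1 (by simp)
    rw [this, hΦ0]
  have hFt : ∀ t, ContDiff ℝ ∞ (F t) := fun t => hF.comp (contDiff_const.prodMk contDiff_id)
  have hGt : ∀ t, ContDiff ℝ ∞ (G t) := fun t => hG.comp (contDiff_const.prodMk contDiff_id)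
  have hsymp : ∀ t, Symp (F t) := by
    intro t x v w
    have hder : ∀ t, HasDerivAt
        (fun t => omega (fderiv ℝ (F t) x v) (fderiv ℝ (F t) x w)) 0 t := by
      intro t
      have h1 := hasDerivAt_fderiv hX hF hFd t x v
      have h2 := hasDerivAt_fderiv hX hF hFd t x w
      set a := fderiv ℝ (F t) x v
      set c := fderiv ℝ (F t) x w
      set y := F t x
      have hl : HasDerivAt (fun t => omegaL (fderiv ℝ (F t) x v))
          (omegaL (fderiv ℝ (fun y => X (t, y)) y a)) t :=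
        omegaL.hasFDerivAt.comp_hasDerivAt t h1
      have h3 := hl.clm_apply h2
      have h4 : HasFDerivAt (fun y => X (t, y)) (dualVecL.comp
          ((ContinuousLinearMap.compL ℝ E (ℝ × E) ℝ).flip (ContinuousLinearMap.inr ℝ ℝ E) ∘L
            (fderiv ℝ (fderiv ℝ H') (t, y)).comp (ContinuousLinearMap.inr ℝ ℝ E))) y := by
        have h5 : HasFDerivAt (fun y => fderiv ℝ H' (t, y))
            ((fderiv ℝ (fderiv ℝ H') (t, y)).comp (ContinuousLinearMap.inr ℝ ℝ E)) y :=
          (hD.differentiable (by simp) (t, y)).hasFDerivAt.comp y (hasFDerivAt_prodMk_right t y)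
        exact dualVecL.hasFDerivAt.comp y
          (((ContinuousLinearMap.compL ℝ E (ℝ × E) ℝ).flip
            (ContinuousLinearMap.inr ℝ ℝ E)).hasFDerivAt.comp y h5)
      have hs : IsSymmSndFDerivAt ℝ H' (t, y) :=
        (hH'.contDiffAt (x := (t, y))).isSymmSndFDerivAt (by
          rw [minSmoothness_of_isRCLikeNormedField]
          exact WithTop.coe_le_coe.2 (le_top : (2 : ℕ∞) ≤ ⊤))
      have h6 : ∀ u, fderiv ℝ (fun y => X (t, y)) y u
          = dualVec ((fderiv ℝ (fderiv ℝ H') (t, y) (0, u)).comp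
              (ContinuousLinearMap.inr ℝ ℝ E)) := by
        intro u
        rw [h4.fderiv]
        rfl
      refine h3.congr_deriv ?_
      change omega (fderiv ℝ (fun y => X (t, y)) y a) c
        + omega a (fderiv ℝ (fun y => X (t, y)) y c) = 0
      rw [omega_swap a, h6, h6, omega_dualVec, omega_dualVec]
      change fderiv ℝ (fderiv ℝ H') (t, y) (0, a) (0, c)
        + -(fderiv ℝ (fderiv ℝ H') (t, y) (0, c) (0, a)) = 0
      rw [hs.eq]
      ring
    have hconst := is_const_of_deriv_eq_zero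
      (f := fun t => omega (fderiv ℝ (F t) x v) (fderiv ℝ (F t) x w))
      (fun t => (hder t).differentiableAt) (fun t => (hder t).deriv) t 0
    have h0 : F 0 = id := funext hF0
    simp only [h0, fderiv_id] at hconst
    exact hconst
  refine ⟨G 1, ?_, hGt 1, ?_, ?_, ?_, ?_⟩
  · rw [hΦF]; exact hFt 1
  · intro x; rw [hΦF]; exact hGF 1 x
  · intro x; rw [hΦF]; exact hFG 1 x
  · rw [hΦF]; exact hsymp 1
  · exact (hsymp 1).inv (hFt 1) (hGt 1) (hFG 1)

/-- The primitive of `ψ^*λ - λ`. -/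
theorem Symp.exists_primitive {ψ : E → E} (hψ : Symp ψ) (dψ : ContDiff ℝ ∞ ψ) :
    ∃ S : E → ℝ, ∀ x, HasStrictFDerivAt S
      ((1 / 2 : ℝ) • ((omegaL (ψ x)).comp (fderiv ℝ ψ x) - omegaL x)) x := by
  set θ : E → (E →L[ℝ] ℝ) := fun x =>
    (1 / 2 : ℝ) • ((omegaL (ψ x)).comp (fderiv ℝ ψ x) - omegaL x) with hθ
  have hD : ContDiff ℝ ∞ (fderiv ℝ ψ) := dψ.fderiv_right (m := ∞) (by simp)
  have hθs : ContDiff ℝ ∞ θ :=
    ((((omegaL.contDiff.comp dψ).clm_comp hD).sub omegaL.contDiff).const_smul (1 / 2 : ℝ))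
  have hsym : ∀ a x y, fderiv ℝ θ a x y = fderiv ℝ θ a y x := by
    intro a x y
    have key : ∀ x y, fderiv ℝ θ a x y
        = (1 / 2 : ℝ) * omega (ψ a) (fderiv ℝ (fderiv ℝ ψ) a x y) := by
      intro x y
      have h1 : HasFDerivAt (fun a => θ a y) (fderiv ℝ (fun a => θ a y) a) a :=
        ((hθs.clm_apply contDiff_const).differentiable (by simp) a).hasFDerivAt
      have h2 : fderiv ℝ θ a x y = fderiv ℝ (fun a => θ a y) a x := by
        have h3 : HasFDerivAt (fun a => θ a y) ((fderiv ℝ θ a).flip y) a := by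
          have h4 := (hθs.differentiable (by simp) a).hasFDerivAt.clm_apply
            (hasFDerivAt_const y a)
          simpa using h4
        rw [h3.fderiv]
        rfl
      rw [h2]
      -- derivative along the line
      have h5 : HasDerivAt (fun s : ℝ => a + s • x) x 0 := by
        simpa using ((hasDerivAt_id (0 : ℝ)).smul_const x).const_add a
      have e0 : a + (0 : ℝ) • x = a := by simp
      have h6 : HasDerivAt (fun s : ℝ => θ (a + s • x) y) (fderiv ℝ (fun a => θ a y) a x) 0 := by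
        have h7 : HasFDerivAt (fun a => θ a y) (fderiv ℝ (fun a => θ a y) a)
            (a + (0 : ℝ) • x) := by rw [e0]; exact h1
        exact h7.comp_hasDerivAt 0 h5
      have hψ1 : HasDerivAt (fun s : ℝ => ψ (a + s • x)) (fderiv ℝ ψ a x) 0 := by
        have h7 : HasFDerivAt ψ (fderiv ℝ ψ a) (a + (0 : ℝ) • x) := by
          rw [e0]; exact (dψ.differentiable (by simp) a).hasFDerivAt
        exact h7.comp_hasDerivAt 0 h5
      have hψ2 : HasDerivAt (fun s : ℝ => fderiv ℝ ψ (a + s • x))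
          (fderiv ℝ (fderiv ℝ ψ) a x) 0 := by
        have h7 : HasFDerivAt (fderiv ℝ ψ) (fderiv ℝ (fderiv ℝ ψ) a) (a + (0 : ℝ) • x) := by
          rw [e0]; exact (hD.differentiable (by simp) a).hasFDerivAt
        exact h7.comp_hasDerivAt 0 h5
      have hψ3 : HasDerivAt (fun s : ℝ => fderiv ℝ ψ (a + s • x) y)
          (fderiv ℝ (fderiv ℝ ψ) a x y) 0 := by
        simpa using hψ2.clm_apply (hasDerivAt_const (0 : ℝ) y)
      have h8 : HasDerivAt (fun s : ℝ => θ (a + s • x) y)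
          ((1 / 2 : ℝ) * ((omega (fderiv ℝ ψ a x) (fderiv ℝ ψ a y)
            + omega (ψ a) (fderiv ℝ (fderiv ℝ ψ) a x y)) - omega x y)) 0 := by
        have h9 := (omegaL.hasFDerivAt.comp_hasDerivAt (0 : ℝ) hψ1).clm_apply hψ3
        have h10 := (omegaL.hasFDerivAt.comp_hasDerivAt (0 : ℝ) h5).clm_apply
          (hasDerivAt_const (0 : ℝ) y)
        have h11 := (h9.sub h10).const_mul (1 / 2 : ℝ)
        refine h11.congr_deriv ?_
        have hz : omega a 0 = 0 := by simp [omega]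
        simp [hz]
      rw [h6.unique h8, hψ a x y]
      ring
    rw [key, key]
    have hs : IsSymmSndFDerivAt ℝ ψ a :=
      (dψ.contDiffAt (x := a)).isSymmSndFDerivAt (by
        rw [minSmoothness_of_isRCLikeNormedField]
        exact WithTop.coe_le_coe.2 (le_top : (2 : ℕ∞) ≤ ⊤))
    rw [hs.eq]
  obtain ⟨S, hS⟩ := convex_univ.exists_forall_hasFDerivAt_of_fderiv_symmetric isOpen_univ
    (fun x _ => (hθs.differentiable (by simp) x).differentiableWithinAt)
    (fun a _ x y => hsym a x y)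
  refine ⟨S, fun x => ?_⟩
  exact hasStrictFDerivAt_of_hasFDerivAt_of_continuousAt (f' := θ)
    (Eventually.of_forall fun y => hS y trivial) hθs.continuous.continuousAt

end

end Pool.Agent.V11199.HP
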