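import Mathlib
import Pool.Agent.V11199.HP.Basic

/-!
# `S¹ × S¹ × D` is not displaced by a `C¹`-small symplectic map
-/

open Topology Filter Set
open scoped ContDiff NNReal ComplexConjugate

namespace Pool.Agent.V11199.HP

noncomputable section

/-- The piece `S¹ × S¹ × D`. -/
def CC : Set E := {x | ‖x.1‖ = 1 ∧ ‖x.2.1‖ = 1 ∧ ‖x.2.2‖ ≤ 1}

theorem isCompact_CC : IsCompact CC := by
  refine Metric.isCompact_of_isClosed_isBounded ?_ ?_
  · have h1 : Continuous fun x : E => ‖x.1‖ := by fun_prop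
    have h2 : Continuous fun x : E => ‖x.2.1‖ := by fun_prop
    have h3 : Continuous fun x : E => ‖x.2.2‖ := by fun_prop
    exact (isClosed_eq h1 continuous_const).inter
      ((isClosed_eq h2 continuous_const).inter (isClosed_le h3 continuous_const))
  · refine (Metric.isBounded_closedBall (x := (0 : E)) (r := 1)).subset ?_
    rintro x ⟨h1, h2, h3⟩
    rw [mem_closedBall_zero_iff, Prod.norm_def, Prod.norm_def]
    exact max_le h1.le (max_le h2.le h3)

/-- The parametrization. -/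
def P (p : ℝ × ℝ × ℂ) : E :=
  (Complex.exp (p.1 * Complex.I), Complex.exp (p.2.1 * Complex.I), p.2.2)

theorem contDiff_P : ContDiff ℝ ∞ P := by
  unfold P
  have h1 : ContDiff ℝ ∞ (fun p : ℝ × ℝ × ℂ => Complex.exp (p.1 * Complex.I)) :=
    ((Complex.ofRealCLM.contDiff.comp contDiff_fst).mul contDiff_const).cexp
  have h2 : ContDiff ℝ ∞ (fun p : ℝ × ℝ × ℂ => Complex.exp (p.2.1 * Complex.I)) :=
    ((Complex.ofRealCLM.contDiff.comp (contDiff_fst.comp contDiff_snd)).mul contDiff_const).cexp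
  exact h1.prodMk (h2.prodMk (contDiff_snd.comp contDiff_snd))

/-- The velocity of the parametrization along a line. -/
def dP (p v : ℝ × ℝ × ℂ) : E :=
  (Complex.I * v.1 * (P p).1, Complex.I * v.2.1 * (P p).2.1, v.2.2)

theorem hasDerivAt_P (p v : ℝ × ℝ × ℂ) :
    HasDerivAt (fun t : ℝ => P (p + t • v)) (dP p v) 0 := by
  have h1 : HasDerivAt (fun t : ℝ => (((p.1 + t * v.1 : ℝ) : ℂ) * Complex.I))
      ((v.1 : ℂ) * Complex.I) 0 := by
    have : HasDerivAt (fun t : ℝ => p.1 + t * v.1) v.1 0 := by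
      simpa using ((hasDerivAt_id (0 : ℝ)).mul_const v.1).const_add p.1
    exact this.ofReal_comp.mul_const _
  have h2 : HasDerivAt (fun t : ℝ => (((p.2.1 + t * v.2.1 : ℝ) : ℂ) * Complex.I))
      ((v.2.1 : ℂ) * Complex.I) 0 := by
    have : HasDerivAt (fun t : ℝ => p.2.1 + t * v.2.1) v.2.1 0 := by
      simpa using ((hasDerivAt_id (0 : ℝ)).mul_const v.2.1).const_add p.2.1
    exact this.ofReal_comp.mul_const _
  have h3 : HasDerivAt (fun t : ℝ => p.2.2 + t • v.2.2) v.2.2 0 := by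
    simpa using ((hasDerivAt_id (0 : ℝ)).smul_const v.2.2).const_add p.2.2
  have h4 := h1.cexp.prodMk (h2.cexp.prodMk h3)
  refine h4.congr_deriv ?_
  simp only [dP, P, zero_mul, add_zero]
  refine Prod.ext ?_ (Prod.ext ?_ rfl)
  · simp only []; ring
  · simp only []; ring

theorem fderiv_P (p v : ℝ × ℝ × ℂ) : fderiv ℝ P p v = dP p v := by
  have h1 : HasFDerivAt P (fderiv ℝ P p) (p + (0 : ℝ) • v) := by
    rw [zero_smul, add_zero]
    exact (contDiff_P.differentiable (by simp) p).hasFDerivAt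
  have h2 : HasDerivAt (fun s : ℝ => p + s • v) v 0 := by
    simpa using ((hasDerivAt_id (0 : ℝ)).smul_const v).const_add p
  have h3 : HasDerivAt (fun t : ℝ => P (p + t • v)) (fderiv ℝ P p v) 0 :=
    HasFDerivAt.comp_hasDerivAt (f := fun s : ℝ => p + s • v) 0 h1 h2
  exact h3.unique (hasDerivAt_P p v)

theorem norm_P_fst (p : ℝ × ℝ × ℂ) : ‖(P p).1‖ = 1 := Complex.norm_exp_ofReal_mul_I _
theorem norm_P_snd (p : ℝ × ℝ × ℂ) : ‖(P p).2.1‖ = 1 := Complex.norm_exp_ofReal_mul_I _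

theorem norm_dP_le (p v : ℝ × ℝ × ℂ) : ‖dP p v‖ ≤ ‖v‖ := by
  rw [Prod.norm_def, Prod.norm_def, Prod.norm_def v, Prod.norm_def v.2]
  simp only [dP, norm_mul, Complex.norm_I, one_mul, norm_P_fst, norm_P_snd, mul_one,
    Complex.norm_real]
  exact le_rfl

/-- The key algebraic identity, for the two circle factors. -/
theorem circle_identity (x f b : ℂ) (v : ℝ) (hx : ‖x‖ = 1) (hf : f ≠ 0) :
    (1 / 2 : ℝ) * ((conj f * b).im - (conj x * (Complex.I * v * x)).im)
      - (1 / 2 : ℝ) * ((conj (Complex.I * v * x) * f + conj x * b) / (conj x * f)).im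
      = (1 / 2 : ℝ) * ((‖f‖ ^ 2 - 1) * (b / f).im) := by
  have hx0 : x ≠ 0 := by intro h; simp [h] at hx
  have hcx : conj x ≠ 0 := by simpa using hx0
  have hxx : conj x * x = 1 := by
    rw [Complex.conj_mul', hx]; norm_num
  have h1 : (conj (Complex.I * v * x) * f + conj x * b) / (conj x * f)
      = -(Complex.I * v) + b / f := by
    rw [map_mul, map_mul, Complex.conj_I, Complex.conj_ofReal]
    field_simp
  have h2 : conj x * (Complex.I * v * x) = Complex.I * v := by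
    calc conj x * (Complex.I * v * x) = (conj x * x) * (Complex.I * v) := by ring
      _ = _ := by rw [hxx, one_mul]
  have h3 : conj f * b = ((‖f‖ ^ 2 : ℝ) : ℂ) * (b / f) := by
    have : ((‖f‖ ^ 2 : ℝ) : ℂ) = conj f * f := by
      rw [Complex.conj_mul']; norm_num
    rw [this]
    field_simp
  rw [h1, h2, h3]
  simp only [Complex.add_im, Complex.neg_im, Complex.mul_im, Complex.I_re,
    Complex.I_im, Complex.ofReal_im, Complex.ofReal_re]
  ring

/-- The algebraic identity for the last factor. -/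
theorem disc_identity (z f v b : ℂ) (hb : b = -v) :
    (1 / 2 : ℝ) * ((conj f * b).im - (conj z * v).im)
      - (1 / 2 : ℝ) * (conj v * (f - z) + conj z * (b - v)).im = 0 := by
  subst hb
  simp only [Complex.add_im, Complex.mul_im, Complex.sub_im, Complex.sub_re, Complex.neg_re,
    Complex.neg_im, Complex.conj_re, Complex.conj_im]
  ring

theorem omega_eq (a b : E) : omega a b
    = (conj a.1 * b.1).im + (conj a.2.1 * b.2.1).im + (conj a.2.2 * b.2.2).im := by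
  simp only [omega, Complex.mul_im, Complex.conj_re, Complex.conj_im]
  ring

/-- The generating function. -/
def QQ (ψ : E → E) (S : E → ℝ) (x : E) : ℝ :=
  S x - (1 / 2 : ℝ) * (Complex.log (conj x.1 * (ψ x).1)).im
    - (1 / 2 : ℝ) * (Complex.log (conj x.2.1 * (ψ x).2.1)).im
    - (1 / 2 : ℝ) * (conj x.2.2 * ((ψ x).2.2 - x.2.2)).im

theorem mem_slitPlane_of_norm {x f : ℂ} (hx : ‖x‖ = 1) (h : ‖f - x‖ ≤ 1 / 16) :
    conj x * f ∈ Complex.slitPlane := by
  have h1 : ‖conj x * f - 1‖ < 1 := by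
    have h2 : conj x * f - 1 = conj x * (f - x) := by
      have hxx : conj x * x = 1 := by
        rw [Complex.conj_mul', hx]; norm_num
      rw [mul_sub, hxx]
    rw [h2, norm_mul, RCLike.norm_conj, hx, one_mul]
    linarith
  have h3 := Complex.mem_slitPlane_of_norm_lt_one h1
  simpa using h3

theorem local_nonempty {ψ : E → E} (hψ : Symp ψ) (dψ : ContDiff ℝ ∞ ψ)
    (h0 : ∀ x ∈ CC, ‖ψ x - x‖ ≤ 1 / 16)
    (h1 : ∀ x ∈ CC, ‖fderiv ℝ ψ x - ContinuousLinearMap.id ℝ E‖ ≤ 1 / 16) :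
    ∃ x ∈ CC, ψ x ∈ CC := by
  obtain ⟨S, hS⟩ := hψ.exists_primitive dψ
  have hSc : Continuous S := continuous_iff_continuousAt.2 fun x => (hS x).continuousAt
  -- components
  have hc1 : ∀ x ∈ CC, ‖(ψ x).1 - x.1‖ ≤ 1 / 16 := fun x hx =>
    (norm_fst_le (ψ x - x)).trans (h0 x hx)
  have hc2 : ∀ x ∈ CC, ‖(ψ x).2.1 - x.2.1‖ ≤ 1 / 16 := fun x hx =>
    ((norm_fst_le (ψ x - x).2).trans (norm_snd_le (ψ x - x))).trans (h0 x hx)
  have hc3 : ∀ x ∈ CC, ‖(ψ x).2.2 - x.2.2‖ ≤ 1 / 16 := fun x hx =>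
    ((norm_snd_le (ψ x - x).2).trans (norm_snd_le (ψ x - x))).trans (h0 x hx)
  -- the compact slice
  let mh : E → ℂ := fun x => x.2.2 + (ψ x).2.2
  have hmh : Continuous mh := by
    have := dψ.continuous
    fun_prop
  let b0 : E := (1, 1, 0)
  have hb0 : b0 ∈ CC := by simp [CC, b0]
  let A : Set E := CC ∩ {x | mh x = mh b0}
  have hA : IsCompact A := isCompact_CC.inter_right (isClosed_eq hmh continuous_const)
  have hQc : ContinuousOn (QQ ψ S) A := by
    have hψc := dψ.continuous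
    unfold QQ
    refine ContinuousOn.sub (ContinuousOn.sub (ContinuousOn.sub hSc.continuousOn ?_) ?_) ?_
    · refine continuousOn_const.mul (Complex.continuous_im.comp_continuousOn ?_)
      refine ContinuousOn.clog ?_ fun x hx => mem_slitPlane_of_norm hx.1.1 (hc1 x hx.1)
      exact ((Complex.continuous_conj.comp continuous_fst).mul
        (continuous_fst.comp hψc)).continuousOn
    · refine continuousOn_const.mul (Complex.continuous_im.comp_continuousOn ?_)
      refine ContinuousOn.clog ?_ fun x hx => mem_slitPlane_of_norm hx.1.2.1 (hc2 x hx.1)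
      exact ((Complex.continuous_conj.comp (continuous_fst.comp continuous_snd)).mul
        (continuous_fst.comp (continuous_snd.comp hψc))).continuousOn
    · refine continuousOn_const.mul (Complex.continuous_im.comp_continuousOn ?_)
      exact ((Complex.continuous_conj.comp (continuous_snd.comp continuous_snd)).mul
        ((continuous_snd.comp (continuous_snd.comp hψc)).sub
          (continuous_snd.comp continuous_snd))).continuousOn
  obtain ⟨x₀, hx₀, hmax⟩ := hA.exists_isMaxOn ⟨b0, hb0, rfl⟩ hQc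
  have hxC : x₀ ∈ CC := hx₀.1
  have hw : mh x₀ = mh b0 := hx₀.2
  -- `x₀.2.2` is small
  have hz0 : ‖x₀.2.2‖ ≤ 1 / 16 := by
    have e1 : (2 : ℂ) * x₀.2.2 = ((ψ b0).2.2 - b0.2.2) - ((ψ x₀).2.2 - x₀.2.2) := by
      have : x₀.2.2 + (ψ x₀).2.2 = b0.2.2 + (ψ b0).2.2 := hw
      have hb : b0.2.2 = 0 := rfl
      rw [hb] at this ⊢
      linear_combination this
    have e2 : ‖(2 : ℂ) * x₀.2.2‖ ≤ 1 / 16 + 1 / 16 := by
      rw [e1]
      exact (norm_sub_le _ _).trans (add_le_add (hc3 b0 hb0) (hc3 x₀ hxC))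
    rw [norm_mul] at e2
    norm_num at e2
    linarith
  -- parametrize
  obtain ⟨θ₁, hθ₁⟩ : ∃ θ : ℝ, Complex.exp (θ * Complex.I) = x₀.1 := by
    refine ⟨Complex.arg x₀.1, ?_⟩
    have := Complex.norm_mul_exp_arg_mul_I x₀.1
    rwa [hxC.1, Complex.ofReal_one, one_mul] at this
  obtain ⟨θ₂, hθ₂⟩ : ∃ θ : ℝ, Complex.exp (θ * Complex.I) = x₀.2.1 := by
    refine ⟨Complex.arg x₀.2.1, ?_⟩
    have := Complex.norm_mul_exp_arg_mul_I x₀.2.1
    rwa [hxC.2.1, Complex.ofReal_one, one_mul] at this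
  let p₀ : ℝ × ℝ × ℂ := (θ₁, θ₂, x₀.2.2)
  have hP : P p₀ = x₀ := by
    simp only [P, p₀]
    rw [hθ₁, hθ₂]
  -- local maximum
  have hloc : IsLocalExtrOn (fun p => QQ ψ S (P p)) {p | mh (P p) = mh (P p₀)} p₀ := by
    right
    have hnear : ∀ᶠ p in 𝓝 p₀, ‖p.2.2‖ < 1 := by
      have : Continuous fun p : ℝ × ℝ × ℂ => ‖p.2.2‖ := by fun_prop
      refine this.continuousAt.eventually_lt continuousAt_const ?_
      change ‖x₀.2.2‖ < 1
      linarith
    refine Filter.eventually_of_mem (inter_mem (mem_nhdsWithin_of_mem_nhds hnear)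
      self_mem_nhdsWithin) ?_
    rintro p ⟨hp1, hp2⟩
    have hpA : P p ∈ A := by
      refine ⟨⟨norm_P_fst p, norm_P_snd p, le_of_lt hp1⟩, ?_⟩
      change mh (P p) = mh b0
      rw [← hw, ← hP]
      exact hp2
    have := hmax hpA
    change QQ ψ S (P p) ≤ QQ ψ S (P p₀)
    rw [hP]
    exact this
  set f : E := ψ x₀ with hf
  have hf1 : f.1 ≠ 0 := by
    intro h
    have := hc1 x₀ hxC
    rw [← hf, h, zero_sub, norm_neg, hxC.1] at this
    norm_num at this
  have hf2 : f.2.1 ≠ 0 := by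
    intro h
    have := hc2 x₀ hxC
    rw [← hf, h, zero_sub, norm_neg, hxC.2.1] at this
    norm_num at this
  -- the derivatives
  set L : ℝ × ℝ × ℂ →L[ℝ] E := (fderiv ℝ ψ x₀).comp (fderiv ℝ P p₀) with hL
  have hPs : HasStrictFDerivAt P (fderiv ℝ P p₀) p₀ :=
    contDiff_P.contDiffAt.hasStrictFDerivAt (by simp)
  have hψs : HasStrictFDerivAt ψ (fderiv ℝ ψ x₀) (P p₀) := by
    rw [hP]
    exact dψ.contDiffAt.hasStrictFDerivAt (by simp)
  have hψP : HasStrictFDerivAt (fun p => ψ (P p)) L p₀ := hψs.comp p₀ hPs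
  let m' : ℝ × ℝ × ℂ →L[ℝ] ℂ :=
    (ContinuousLinearMap.snd ℝ ℂ ℂ).comp ((ContinuousLinearMap.snd ℝ ℂ (ℂ × ℂ)).comp
      (fderiv ℝ P p₀)) +
    (ContinuousLinearMap.snd ℝ ℂ ℂ).comp ((ContinuousLinearMap.snd ℝ ℂ (ℂ × ℂ)).comp L)
  have hm' : HasStrictFDerivAt (fun p => mh (P p)) m' p₀ :=
    (hPs.snd.snd).add (hψP.snd.snd)
  have hm'v : ∀ v, m' v = v.2.2 + (L v).2.2 := by
    intro v
    change (fderiv ℝ P p₀ v).2.2 + (L v).2.2 = _
    rw [fderiv_P]
    rfl
  obtain ⟨q', hq'⟩ : ∃ q', HasStrictFDerivAt (fun p => QQ ψ S (P p)) q' p₀ := by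
    have hfun : (fun p => QQ ψ S (P p)) = fun p => S (P p)
        - ((1 / 2 : ℝ) * (Complex.log (conj (P p).1 * (ψ (P p)).1)).im
          + (1 / 2 : ℝ) * (Complex.log (conj (P p).2.1 * (ψ (P p)).2.1)).im
          + (1 / 2 : ℝ) * (conj (P p).2.2 * ((ψ (P p)).2.2 - (P p).2.2)).im) := by
      funext p
      simp only [QQ]
      ring
    have hg : ContDiffAt ℝ 1 (fun p : ℝ × ℝ × ℂ =>
        ((1 / 2 : ℝ) * (Complex.log (conj (P p).1 * (ψ (P p)).1)).im
          + (1 / 2 : ℝ) * (Complex.log (conj (P p).2.1 * (ψ (P p)).2.1)).im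
          + (1 / 2 : ℝ) * (conj (P p).2.2 * ((ψ (P p)).2.2 - (P p).2.2)).im)) p₀ := by
      have hP1 : ContDiffAt ℝ 1 P p₀ := (contDiff_P.of_le (by simp)).contDiffAt
      have hψ1 : ContDiffAt ℝ 1 (fun p => ψ (P p)) p₀ :=
        ((dψ.comp contDiff_P).of_le (by simp)).contDiffAt
      have hconj : ∀ {g : ℝ × ℝ × ℂ → ℂ}, ContDiffAt ℝ 1 g p₀ →
          ContDiffAt ℝ 1 (fun p => conj (g p)) p₀ := fun {g} hg =>
        (Complex.conjCLE.contDiff.contDiffAt (x := g p₀)).comp p₀ hg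
      have him : ∀ {g : ℝ × ℝ × ℂ → ℂ}, ContDiffAt ℝ 1 g p₀ →
          ContDiffAt ℝ 1 (fun p => (1 / 2 : ℝ) * (g p).im) p₀ := fun {g} hg =>
        contDiffAt_const.mul ((Complex.imCLM.contDiff.contDiffAt (x := g p₀)).comp p₀ hg)
      have hlog : ∀ {g : ℝ × ℝ × ℂ → ℂ}, ContDiffAt ℝ 1 g p₀ → g p₀ ∈ Complex.slitPlane →
          ContDiffAt ℝ 1 (fun p => Complex.log (g p)) p₀ := fun {g} hg h =>
        (((Complex.contDiffAt_log h).restrict_scalars ℝ)).comp p₀ hg
      refine ContDiffAt.add (ContDiffAt.add (him (hlog ?_ ?_)) (him (hlog ?_ ?_))) (him ?_)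
      · exact (hconj hP1.fst).mul hψ1.fst
      · rw [hP]; exact mem_slitPlane_of_norm hxC.1 (hc1 _ hxC)
      · exact (hconj hP1.snd.fst).mul hψ1.snd.fst
      · rw [hP]; exact mem_slitPlane_of_norm hxC.2.1 (hc2 _ hxC)
      · exact (hconj hP1.snd.snd).mul (hψ1.snd.snd.sub hP1.snd.snd)
    have hSP : HasStrictFDerivAt (fun p => S (P p)) _ p₀ := (hS (P p₀)).comp p₀ hPs
    rw [hfun]
    exact ⟨_, hSP.sub (hg.hasStrictFDerivAt (by simp))⟩
  -- the value of `q'` on the kernel of `m'`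
  have hqv : ∀ v, m' v = 0 → q' v = (1 / 2 : ℝ) * ((‖f.1‖ ^ 2 - 1) * ((L v).1 / f.1).im)
      + (1 / 2 : ℝ) * ((‖f.2.1‖ ^ 2 - 1) * ((L v).2.1 / f.2.1).im) := by
    intro v hv
    set b : E := L v with hb
    set u : E := dP p₀ v with hu
    have hline : HasDerivAt (fun s : ℝ => p₀ + s • v) v 0 := by
      simpa using ((hasDerivAt_id (0 : ℝ)).smul_const v).const_add p₀
    have e0 : p₀ + (0 : ℝ) • v = p₀ := by simp
    have d1 : HasDerivAt (fun s : ℝ => QQ ψ S (P (p₀ + s • v))) (q' v) 0 := by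
      have h7 : HasFDerivAt (fun p => QQ ψ S (P p)) q' (p₀ + (0 : ℝ) • v) := by
        rw [e0]; exact hq'.hasFDerivAt
      exact h7.comp_hasDerivAt 0 hline
    have dPc : HasDerivAt (fun s : ℝ => P (p₀ + s • v)) u 0 := hasDerivAt_P p₀ v
    have dψc : HasDerivAt (fun s : ℝ => ψ (P (p₀ + s • v))) b 0 := by
      have h7 : HasFDerivAt (fun p => ψ (P p)) L (p₀ + (0 : ℝ) • v) := by
        rw [e0]; exact hψP.hasFDerivAt
      exact HasFDerivAt.comp_hasDerivAt (f := fun s : ℝ => p₀ + s • v) 0 h7 hline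
    have hfst : ∀ {c : ℝ → E} {c' : E}, HasDerivAt c c' 0 →
        HasDerivAt (fun s => (c s).1) c'.1 0 := fun {c c'} hc =>
      (hasFDerivAt_fst (𝕜 := ℝ) (E := ℂ) (F := ℂ × ℂ) (p := c 0)).comp_hasDerivAt 0 hc
    have hsnd : ∀ {c : ℝ → E} {c' : E}, HasDerivAt c c' 0 →
        HasDerivAt (fun s => (c s).2) c'.2 0 := fun {c c'} hc =>
      (hasFDerivAt_snd (𝕜 := ℝ) (E := ℂ) (F := ℂ × ℂ) (p := c 0)).comp_hasDerivAt 0 hc
    have hfst2 : ∀ {c : ℝ → ℂ × ℂ} {c' : ℂ × ℂ}, HasDerivAt c c' 0 →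
        HasDerivAt (fun s => (c s).1) c'.1 0 := fun {c c'} hc =>
      (hasFDerivAt_fst (𝕜 := ℝ) (E := ℂ) (F := ℂ) (p := c 0)).comp_hasDerivAt 0 hc
    have hsnd2 : ∀ {c : ℝ → ℂ × ℂ} {c' : ℂ × ℂ}, HasDerivAt c c' 0 →
        HasDerivAt (fun s => (c s).2) c'.2 0 := fun {c c'} hc =>
      (hasFDerivAt_snd (𝕜 := ℝ) (E := ℂ) (F := ℂ) (p := c 0)).comp_hasDerivAt 0 hc
    have hconj : ∀ {c : ℝ → ℂ} {c' : ℂ}, HasDerivAt c c' 0 →
        HasDerivAt (fun s => conj (c s)) (conj c') 0 := fun {c c'} hc =>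
      (Complex.conjCLE.hasFDerivAt (x := c 0)).comp_hasDerivAt 0 hc
    have him : ∀ {c : ℝ → ℂ} {c' : ℂ}, HasDerivAt c c' 0 →
        HasDerivAt (fun s => (c s).im) c'.im 0 := fun {c c'} hc =>
      (Complex.imCLM.hasFDerivAt (x := c 0)).comp_hasDerivAt 0 hc
    have hSd : HasDerivAt (fun s : ℝ => S (P (p₀ + s • v)))
        ((1 / 2 : ℝ) * (omega f b - omega x₀ u)) 0 := by
      have h7 : HasFDerivAt S
          ((1 / 2 : ℝ) • ((omegaL (ψ x₀)).comp (fderiv ℝ ψ x₀) - omegaL x₀))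
          (P (p₀ + (0 : ℝ) • v)) := by
        rw [e0, hP]; exact (hS x₀).hasFDerivAt
      refine (h7.comp_hasDerivAt 0 dPc).congr_deriv ?_
      simp only [_root_.smul_apply, _root_.sub_apply,
        ContinuousLinearMap.comp_apply, omegaL_apply, smul_eq_mul]
      rw [hb, hL, ContinuousLinearMap.comp_apply, fderiv_P]
    have hl1 : HasDerivAt (fun s : ℝ => Complex.log (conj (P (p₀ + s • v)).1 *
        (ψ (P (p₀ + s • v))).1)) ((conj u.1 * f.1 + conj x₀.1 * b.1) / (conj x₀.1 * f.1)) 0 := by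
      have h8 := (hconj (hfst dPc)).mul (hfst dψc)
      simp only [e0, hP] at h8
      refine (h8.clog_real ?_).congr_deriv ?_
      · simp only [Pi.mul_apply, e0, hP]
        exact mem_slitPlane_of_norm hxC.1 (hc1 _ hxC)
      · simp only [Pi.mul_apply, e0, hP, hf]
    have hl2 : HasDerivAt (fun s : ℝ => Complex.log (conj (P (p₀ + s • v)).2.1 *
        (ψ (P (p₀ + s • v))).2.1))
        ((conj u.2.1 * f.2.1 + conj x₀.2.1 * b.2.1) / (conj x₀.2.1 * f.2.1)) 0 := by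
      have h8 := (hconj (hfst2 (hsnd dPc))).mul (hfst2 (hsnd dψc))
      simp only [e0, hP] at h8
      refine (h8.clog_real ?_).congr_deriv ?_
      · simp only [Pi.mul_apply, e0, hP]
        exact mem_slitPlane_of_norm hxC.2.1 (hc2 _ hxC)
      · simp only [Pi.mul_apply, e0, hP, hf]
    have hl3 : HasDerivAt (fun s : ℝ => conj (P (p₀ + s • v)).2.2 *
        ((ψ (P (p₀ + s • v))).2.2 - (P (p₀ + s • v)).2.2))
        (conj u.2.2 * (f.2.2 - x₀.2.2) + conj x₀.2.2 * (b.2.2 - u.2.2)) 0 := by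
      have h8 := (hconj (hsnd2 (hsnd dPc))).mul
        ((hsnd2 (hsnd dψc)).sub (hsnd2 (hsnd dPc)))
      simp only [Pi.sub_apply, e0, hP] at h8
      exact h8
    have d2 := ((hSd.sub ((him hl1).const_mul (1 / 2 : ℝ))).sub
      ((him hl2).const_mul (1 / 2 : ℝ))).sub ((him hl3).const_mul (1 / 2 : ℝ))
    have d3 := d1.unique d2
    rw [d3, omega_eq, omega_eq]
    have i1 := circle_identity x₀.1 f.1 b.1 v.1 hxC.1 hf1
    have i2 := circle_identity x₀.2.1 f.2.1 b.2.1 v.2.1 hxC.2.1 hf2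
    have hb3 : b.2.2 = -v.2.2 := by
      have := hm'v v
      rw [hv] at this
      exact (neg_eq_of_add_eq_zero_right this.symm).symm
    have i3 := disc_identity x₀.2.2 f.2.2 v.2.2 b.2.2 hb3
    have hu1 : u.1 = Complex.I * v.1 * x₀.1 := by rw [hu, dP, hP]
    have hu2 : u.2.1 = Complex.I * v.2.1 * x₀.2.1 := by rw [hu, dP, hP]
    have hu3 : u.2.2 = v.2.2 := rfl
    rw [hu1, hu2, hu3]
    linarith
  -- Lagrange multipliers
  obtain ⟨Λ, Λ₀, hne, hΛ⟩ := hloc.exists_linear_map_of_hasStrictFDerivAt hm' hq'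
  -- the comparison map
  let T : (ℝ × ℝ × ℂ) →ₗ[ℝ] (ℝ × ℝ × ℂ) :=
    { toFun := fun v => (((L v).1 / f.1).im, ((L v).2.1 / f.2.1).im, (1 / 2 : ℝ) • m' v)
      map_add' := by
        intro a b
        simp only [map_add, Prod.fst_add, Prod.snd_add, add_div, Complex.add_im, smul_add,
          Prod.mk_add_mk]
      map_smul' := by
        intro a b
        simp only [map_smul, Prod.smul_fst, Prod.smul_snd, smul_div_assoc, Complex.smul_im,
          RingHom.id_apply, Prod.smul_mk, smul_eq_mul]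
        rw [smul_comm] }
  have hTv : ∀ v, ‖T v - v‖ ≤ 1 / 2 * ‖v‖ := by
    intro v
    have hu : ‖dP p₀ v‖ ≤ ‖v‖ := norm_dP_le p₀ v
    set r : E := L v - dP p₀ v with hr
    have hrn : ‖r‖ ≤ 1 / 16 * ‖v‖ := by
      have e1 : r = (fderiv ℝ ψ x₀ - ContinuousLinearMap.id ℝ E) (dP p₀ v) := by
        rw [hr, hL, ContinuousLinearMap.comp_apply, fderiv_P]
        rfl
      rw [e1]
      refine (ContinuousLinearMap.le_opNorm _ _).trans ?_
      exact mul_le_mul (h1 x₀ hxC) hu (norm_nonneg _) (by norm_num)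
    have hr1 : ‖r.1‖ ≤ 1 / 16 * ‖v‖ := (norm_fst_le r).trans hrn
    have hr2 : ‖r.2.1‖ ≤ 1 / 16 * ‖v‖ := ((norm_fst_le r.2).trans (norm_snd_le r)).trans hrn
    have hr3 : ‖r.2.2‖ ≤ 1 / 16 * ‖v‖ := ((norm_snd_le r.2).trans (norm_snd_le r)).trans hrn
    have hv1 : ‖v.1‖ ≤ ‖v‖ := norm_fst_le v
    have hv2 : ‖v.2.1‖ ≤ ‖v‖ := (norm_fst_le v.2).trans (norm_snd_le v)
    have key : ∀ (x g l : ℂ) (s : ℝ), ‖x‖ = 1 → ‖g - x‖ ≤ 1 / 16 → g ≠ 0 →
        ‖l - Complex.I * s * x‖ ≤ 1 / 16 * ‖v‖ → ‖s‖ ≤ ‖v‖ → ‖(l / g).im - s‖ ≤ 1 / 2 * ‖v‖ := by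
      intro x g l s hx hg hg0 hl hs
      have e1 : (l / g).im - s = (l / g - Complex.I * s).im := by
        simp
      have e2 : l / g - Complex.I * s = ((l - Complex.I * s * x) - Complex.I * s * (g - x)) / g := by
        field_simp
        ring
      have e3 : 15 / 16 ≤ ‖g‖ := by
        have : ‖x‖ ≤ ‖g‖ + ‖g - x‖ := by
          calc ‖x‖ = ‖g - (g - x)‖ := by congr 1; ring
            _ ≤ _ := norm_sub_le _ _
        linarith
      have e4 : ‖(l - Complex.I * s * x) - Complex.I * s * (g - x)‖ ≤ 1 / 8 * ‖v‖ := by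
        refine (norm_sub_le _ _).trans ?_
        have : ‖Complex.I * s * (g - x)‖ ≤ 1 / 16 * ‖v‖ := by
          rw [norm_mul, norm_mul, Complex.norm_I, one_mul, Complex.norm_real]
          calc ‖s‖ * ‖g - x‖ ≤ ‖v‖ * (1 / 16) :=
                mul_le_mul hs hg (norm_nonneg _) (norm_nonneg _)
            _ = _ := by ring
        linarith
      rw [e1, Real.norm_eq_abs]
      refine (Complex.abs_im_le_norm _).trans ?_
      rw [e2, norm_div, div_le_iff₀ (by linarith)]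
      have hvn := norm_nonneg v
      nlinarith
    have hx1 : (P p₀).1 = x₀.1 := by rw [hP]
    have hx2 : (P p₀).2.1 = x₀.2.1 := by rw [hP]
    have k1 := key x₀.1 f.1 (L v).1 v.1 hxC.1 (hc1 _ hxC) hf1 (by
      rw [← hx1]; exact hr1) hv1
    have k2 := key x₀.2.1 f.2.1 (L v).2.1 v.2.1 hxC.2.1 (hc2 _ hxC) hf2 (by
      rw [← hx2]; exact hr2) hv2
    have k3 : ‖(1 / 2 : ℝ) • m' v - v.2.2‖ ≤ 1 / 2 * ‖v‖ := by
      have e1 : (1 / 2 : ℝ) • m' v - v.2.2 = (1 / 2 : ℝ) • r.2.2 := by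
        rw [hm'v]
        have : r.2.2 = (L v).2.2 - v.2.2 := rfl
        rw [this]
        module
      rw [e1, norm_smul]
      have hvn := norm_nonneg v
      have : ‖(1 / 2 : ℝ)‖ = 1 / 2 := by norm_num
      rw [this]
      nlinarith
    rw [Prod.norm_def, Prod.norm_def]
    exact max_le k1 (max_le k2 k3)
  have hTinj : Function.Injective T := by
    rw [← LinearMap.ker_eq_bot, LinearMap.ker_eq_bot']
    intro v hv
    have := hTv v
    rw [hv, zero_sub, norm_neg] at this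
    have h2 := norm_nonneg v
    exact norm_eq_zero.1 (by linarith)
  have hTsurj : Function.Surjective T := LinearMap.surjective_of_injective hTinj
  -- the multiplier of `q'` does not vanish
  have hΛ₀ : Λ₀ ≠ 0 := by
    intro h
    apply hne
    refine Prod.ext ?_ h
    ext1 c
    obtain ⟨v, hv⟩ := hTsurj (0, 0, (1 / 2 : ℝ) • c)
    have hv3 : (1 / 2 : ℝ) • m' v = (1 / 2 : ℝ) • c := congrArg (fun w => w.2.2) hv
    have hv4 : m' v = c := smul_right_injective ℂ (by norm_num : (1 / 2 : ℝ) ≠ 0) hv3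
    have := hΛ v
    rw [h, zero_smul, add_zero, hv4] at this
    exact this
  have hker : ∀ v, m' v = 0 → q' v = 0 := by
    intro v hv
    have := hΛ v
    rw [hv, map_zero, zero_add, smul_eq_mul] at this
    exact (mul_eq_zero.1 this).resolve_left hΛ₀
  have hn1 : ‖f.1‖ = 1 := by
    obtain ⟨v, hv⟩ := hTsurj (1, 0, 0)
    have a1 : ((L v).1 / f.1).im = 1 := congrArg (fun w => w.1) hv
    have a2 : ((L v).2.1 / f.2.1).im = 0 := congrArg (fun w => w.2.1) hv
    have a3 : (1 / 2 : ℝ) • m' v = 0 := congrArg (fun w => w.2.2) hv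
    have a4 : m' v = 0 := (smul_eq_zero.1 a3).resolve_left (by norm_num)
    have a5 := hqv v a4
    rw [hker v a4, a1, a2] at a5
    have a6 : ‖f.1‖ ^ 2 = 1 := by linarith
    exact (pow_eq_one_iff_of_nonneg (norm_nonneg _) two_ne_zero).1 a6
  have hn2 : ‖f.2.1‖ = 1 := by
    obtain ⟨v, hv⟩ := hTsurj (0, 1, 0)
    have a1 : ((L v).1 / f.1).im = 0 := congrArg (fun w => w.1) hv
    have a2 : ((L v).2.1 / f.2.1).im = 1 := congrArg (fun w => w.2.1) hv
    have a3 : (1 / 2 : ℝ) • m' v = 0 := congrArg (fun w => w.2.2) hv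
    have a4 : m' v = 0 := (smul_eq_zero.1 a3).resolve_left (by norm_num)
    have a5 := hqv v a4
    rw [hker v a4, a1, a2] at a5
    have a6 : ‖f.2.1‖ ^ 2 = 1 := by linarith
    exact (pow_eq_one_iff_of_nonneg (norm_nonneg _) two_ne_zero).1 a6
  refine ⟨x₀, hxC, hn1, hn2, ?_⟩
  have a1 := hc3 x₀ hxC
  have a2 : ‖f.2.2‖ ≤ ‖x₀.2.2‖ + ‖f.2.2 - x₀.2.2‖ := by
    calc ‖f.2.2‖ = ‖x₀.2.2 + (f.2.2 - x₀.2.2)‖ := by congr 1; ring
      _ ≤ _ := norm_add_le _ _
  linarith

end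

end Pool.Agent.V11199.HP
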