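import Mathlib
import Pool.Agent.V11199.HP.Local

/-!
# Packings of a set containing `S¹ × S¹ × D` are countable
-/

open Topology Filter Set
open scoped ContDiff NNReal ComplexConjugate

namespace Pool.Agent.V11199.HP

noncomputable section

theorem countable_packing {K : Set E} (hK : CC ⊆ K) {PP : Set (Set E)}
    (hdis : PP.PairwiseDisjoint id) (hham : ∀ A ∈ PP, ∃ φ, IsHam φ ∧ A = φ '' K) :
    PP.Countable := by
  have h1 : ∀ A : PP, ∃ φ G : E → E, ContDiff ℝ ∞ φ ∧ ContDiff ℝ ∞ G ∧ (∀ x, G (φ x) = x) ∧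
      (∀ x, φ (G x) = x) ∧ Symp φ ∧ Symp G ∧ (A : Set E) = φ '' K := by
    intro A
    obtain ⟨φ, hφ, hA⟩ := hham A A.2
    obtain ⟨G, a1, a2, a3, a4, a5, a6⟩ := hφ.exists_inv
    exact ⟨φ, G, a1, a2, a3, a4, a5, a6, hA⟩
  choose φ G hφ hG hGφ hφG sφ sG hA using h1
  haveI : CompactSpace CC := isCompact_iff_compactSpace.1 isCompact_CC
  haveI : ProperSpace (E →L[ℝ] E) := FiniteDimensional.proper_real (E →L[ℝ] E)
  have hDφ : ∀ A, ContDiff ℝ ∞ (fderiv ℝ (φ A)) := fun A => (hφ A).fderiv_right (m := ∞) (by simp)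
  have hDG : ∀ A, ContDiff ℝ ∞ (fderiv ℝ (G A)) := fun A => (hG A).fderiv_right (m := ∞) (by simp)
  let Θ : PP → C(CC, E × (E →L[ℝ] E)) := fun A =>
    ⟨fun c => (φ A c, fderiv ℝ (φ A) c),
      ((hφ A).continuous.comp continuous_subtype_val).prodMk
        ((hDφ A).continuous.comp continuous_subtype_val)⟩
  let ι : C(CC, E × (E →L[ℝ] E)) :=
    ⟨fun c => ((c : E), ContinuousLinearMap.id ℝ E),
      continuous_subtype_val.prodMk continuous_const⟩
  let Ψ : PP → C(E × (E →L[ℝ] E), E × (E →L[ℝ] E)) := fun A =>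
    ⟨fun y => (G A y.1, (fderiv ℝ (G A) y.1).comp y.2),
      ((hG A).continuous.comp continuous_fst).prodMk
        (((hDG A).continuous.comp continuous_fst).clm_comp continuous_snd)⟩
  let N : PP → Set C(CC, E × (E →L[ℝ] E)) := fun A => {g | dist ((Ψ A).comp g) ι < 1 / 16}
  have hcomp : ∀ A B : PP, ∀ x, fderiv ℝ (G A ∘ φ B) x
      = (fderiv ℝ (G A) (φ B x)).comp (fderiv ℝ (φ B) x) := fun A B x =>
    (((hG A).differentiable (by simp) (φ B x)).hasFDerivAt.comp x
      ((hφ B).differentiable (by simp) x).hasFDerivAt).fderiv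
  have hNo : ∀ A, IsOpen (N A) := by
    intro A
    have : Continuous fun g : C(CC, E × (E →L[ℝ] E)) => dist ((Ψ A).comp g) ι :=
      ((Ψ A).continuous_postcomp).dist continuous_const
    exact isOpen_lt this continuous_const
  have hself : ∀ A, Θ A ∈ N A := by
    intro A
    have h2 : (Ψ A).comp (Θ A) = ι := by
      ext1 c
      refine Prod.ext ?_ ?_
      · exact hGφ A c
      · change (fderiv ℝ (G A) (φ A c)).comp (fderiv ℝ (φ A) c) = ContinuousLinearMap.id ℝ E
        rw [← hcomp]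
        have : G A ∘ φ A = id := funext (hGφ A)
        rw [this, fderiv_id]
    change dist ((Ψ A).comp (Θ A)) ι < 1 / 16
    rw [h2, dist_self]
    norm_num
  have hsep : ∀ A B, Θ B ∈ N A → A = B := by
    intro A B hB
    by_contra hne
    have hd : ∀ c : CC, dist ((Ψ A).comp (Θ B) c) (ι c) ≤ 1 / 16 := fun c =>
      (ContinuousMap.dist_apply_le_dist c).trans (le_of_lt hB)
    have hψs : Symp (G A ∘ φ B) := (sG A).comp (sφ B) (hG A) (hφ B)
    have hψd : ContDiff ℝ ∞ (G A ∘ φ B) := (hG A).comp (hφ B)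
    obtain ⟨x, hx, hx'⟩ := local_nonempty hψs hψd
      (fun x hx => by
        have h3 := (le_max_left _ _).trans (hd ⟨x, hx⟩)
        rw [dist_eq_norm] at h3
        exact h3)
      (fun x hx => by
        have h3 := (le_max_right _ _).trans (hd ⟨x, hx⟩)
        rw [dist_eq_norm] at h3
        rw [hcomp]
        exact h3)
    have hB1 : φ B x ∈ (B : Set E) := by
      rw [hA B]
      exact mem_image_of_mem _ (hK hx)
    have hA1 : φ B x ∈ (A : Set E) := by
      rw [hA A]
      exact ⟨(G A ∘ φ B) x, hK hx', hφG A (φ B x)⟩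
    have hAB : (A : Set E) ≠ (B : Set E) := fun h => hne (Subtype.ext h)
    exact (Set.disjoint_left.1 (hdis A.2 B.2 hAB) hA1) hB1
  have hbase : ∀ A, ∃ U ∈ TopologicalSpace.countableBasis C(CC, E × (E →L[ℝ] E)),
      Θ A ∈ U ∧ U ⊆ N A := fun A =>
    (TopologicalSpace.isBasis_countableBasis _).exists_subset_of_mem_open (hself A) (hNo A)
  choose U hU hU1 hU2 using hbase
  have hinj : Function.Injective
      (fun A : PP => (⟨U A, hU A⟩ :
        TopologicalSpace.countableBasis C(CC, E × (E →L[ℝ] E)))) := by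
    intro A B hAB
    have h3 : U A = U B := congrArg Subtype.val hAB
    exact hsep A B (hU2 A (h3 ▸ hU1 B))
  haveI : Countable (TopologicalSpace.countableBasis C(CC, E × (E →L[ℝ] E))) :=
    (TopologicalSpace.countable_countableBasis _).to_subtype
  exact Set.countable_coe_iff.1 hinj.countable

end

end Pool.Agent.V11199.HP
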