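import Mathlib
import Pool.Agent.V11199.HP.Count

/-!
# A non-coisotropic hypersurface of codimension two containing `S¹ × S¹ × D`
-/

open Topology Filter Set
open scoped ContDiff NNReal ComplexConjugate

namespace Pool.Agent.V11199.HP

noncomputable section

/-- The two defining equations. -/
def FF (x : E) : ℝ × ℝ :=
  (‖x.2.1‖ ^ 2 - 1 + 1 / 8 * (‖x.1‖ ^ 2 - 1) * x.1.re,
    (‖x.1‖ ^ 2 - 2) ^ 2 + Real.exp 1 * expNegInvGlue (‖x.2.2‖ ^ 2 - 1) - 1)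

/-- The submanifold. -/
def KK : Set E := {x | FF x = 0}

theorem contDiff_FF : ContDiff ℝ ∞ FF := by
  unfold FF
  have h1 : ContDiff ℝ ∞ (fun x : E => ‖x.1‖ ^ 2) := contDiff_fst.norm_sq ℝ
  have h2 : ContDiff ℝ ∞ (fun x : E => ‖x.2.1‖ ^ 2) :=
    (contDiff_fst.comp contDiff_snd).norm_sq ℝ
  have h3 : ContDiff ℝ ∞ (fun x : E => ‖x.2.2‖ ^ 2) :=
    (contDiff_snd.comp contDiff_snd).norm_sq ℝ
  have h4 : ContDiff ℝ ∞ (fun x : E => x.1.re) := Complex.reCLM.contDiff.comp contDiff_fst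
  refine ContDiff.prodMk ?_ ?_
  · exact (h2.sub contDiff_const).add ((contDiff_const.mul (h1.sub contDiff_const)).mul h4)
  · exact (((h1.sub contDiff_const).pow 2).add
      (contDiff_const.mul (expNegInvGlue.contDiff.comp (h3.sub contDiff_const)))).sub contDiff_const

theorem gg_le_one {s : ℝ} (h : Real.exp 1 * expNegInvGlue s ≤ 1) : s ≤ 1 := by
  by_contra hs
  push Not at hs
  have h1 : expNegInvGlue s = Real.exp (-s⁻¹) := by
    rw [expNegInvGlue, if_neg (by linarith)]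
  rw [h1, ← Real.exp_add] at h
  have h2 : (1 : ℝ) + -s⁻¹ ≤ 0 := Real.exp_le_one_iff.1 h
  have h3 : s⁻¹ < 1 := inv_lt_one_of_one_lt₀ hs
  linarith

theorem gg_of_le_one {s : ℝ} (h : s ≤ 1) : Real.exp 1 * expNegInvGlue s ≤ 1 := by
  rcases le_or_gt s 0 with h0 | h0
  · rw [expNegInvGlue.zero_of_nonpos h0]; norm_num
  · have h1 : expNegInvGlue s = Real.exp (-s⁻¹) := by
      rw [expNegInvGlue, if_neg (by linarith)]
    rw [h1, ← Real.exp_add]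
    apply Real.exp_le_one_iff.2
    have h3 : 1 ≤ s⁻¹ := (one_le_inv₀ h0).2 h
    linarith

theorem gg_nonneg (s : ℝ) : 0 ≤ Real.exp 1 * expNegInvGlue s :=
  mul_nonneg (Real.exp_pos _).le (expNegInvGlue.nonneg s)

theorem gg_eq_one {s : ℝ} (h : Real.exp 1 * expNegInvGlue s = 1) : s = 1 := by
  rcases le_or_gt s 0 with h0 | h0
  · rw [expNegInvGlue.zero_of_nonpos h0] at h; norm_num at h
  · have h1 : expNegInvGlue s = Real.exp (-s⁻¹) := by
      rw [expNegInvGlue, if_neg (by linarith)]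
    rw [h1, ← Real.exp_add] at h
    have h2 := Real.exp_eq_one_iff (1 + -s⁻¹) |>.1 h
    have h3 : s⁻¹ = 1 := by linarith
    rwa [inv_eq_one] at h3

theorem gg_one : Real.exp 1 * expNegInvGlue 1 = 1 := by
  have h1 : expNegInvGlue 1 = Real.exp (-(1 : ℝ)⁻¹) := by
    rw [expNegInvGlue, if_neg (by norm_num)]
  rw [h1, ← Real.exp_add]
  norm_num

theorem hasDerivAt_gg_one : HasDerivAt expNegInvGlue (Real.exp (-1)) 1 := by
  have h1 : HasDerivAt (fun s : ℝ => Real.exp (-s⁻¹)) (Real.exp (-1)) 1 := by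
    have := ((hasDerivAt_inv (one_ne_zero (α := ℝ))).neg).exp
    refine this.congr_deriv ?_
    norm_num
  refine h1.congr_of_eventuallyEq ?_
  filter_upwards [lt_mem_nhds (zero_lt_one (α := ℝ))] with s hs
  rw [expNegInvGlue, if_neg (by linarith)]

theorem mem_KK {x : E} : x ∈ KK ↔ ‖x.2.1‖ ^ 2 - 1 + 1 / 8 * (‖x.1‖ ^ 2 - 1) * x.1.re = 0 ∧
    (‖x.1‖ ^ 2 - 2) ^ 2 + Real.exp 1 * expNegInvGlue (‖x.2.2‖ ^ 2 - 1) - 1 = 0 := by
  change FF x = 0 ↔ _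
  rw [FF, Prod.mk_eq_zero]

/-- Bounds on the submanifold. -/
theorem KK_bounds {x : E} (hx : x ∈ KK) : 1 ≤ ‖x.1‖ ^ 2 ∧ ‖x.1‖ ^ 2 ≤ 3 ∧ ‖x.2.2‖ ^ 2 ≤ 2 ∧
    0 < ‖x.2.1‖ ^ 2 ∧ ‖x.2.1‖ ^ 2 ≤ 2 := by
  obtain ⟨h1, h2⟩ := mem_KK.1 hx
  have h3 := gg_nonneg (‖x.2.2‖ ^ 2 - 1)
  have h4 : (‖x.1‖ ^ 2 - 2) ^ 2 ≤ 1 := by linarith
  have h5 := abs_le.1 ((sq_le_one_iff_abs_le_one _).1 h4)
  have h6 : Real.exp 1 * expNegInvGlue (‖x.2.2‖ ^ 2 - 1) ≤ 1 := by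
    nlinarith [sq_nonneg (‖x.1‖ ^ 2 - 2)]
  have h7 := gg_le_one h6
  have h8 : |x.1.re| ≤ ‖x.1‖ := Complex.abs_re_le_norm _
  have h9 : ‖x.1‖ ≤ 2 := by nlinarith [norm_nonneg x.1]
  have h10 := abs_le.1 h8
  refine ⟨by linarith [h5.1], by linarith [h5.2], by linarith, ?_, ?_⟩
  · nlinarith [h5.1, h5.2]
  · nlinarith [h5.1, h5.2]

theorem CC_subset_KK : CC ⊆ KK := by
  rintro x ⟨h1, h2, h3⟩
  rw [mem_KK, h1, h2]
  have h4 : ‖x.2.2‖ ^ 2 - 1 ≤ 0 := by nlinarith [norm_nonneg x.2.2]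
  rw [expNegInvGlue.zero_of_nonpos h4]
  norm_num

theorem isCompact_KK : IsCompact KK := by
  refine Metric.isCompact_of_isClosed_isBounded
    (isClosed_eq contDiff_FF.continuous continuous_const) ?_
  refine (Metric.isBounded_closedBall (x := (0 : E)) (r := 2)).subset ?_
  intro x hx
  obtain ⟨h1, h2, h3, h4, h5⟩ := KK_bounds hx
  rw [mem_closedBall_zero_iff, Prod.norm_def, Prod.norm_def]
  refine max_le ?_ (max_le ?_ ?_)
  · nlinarith [norm_nonneg x.1]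
  · nlinarith [norm_nonneg x.2.1]
  · nlinarith [norm_nonneg x.2.2]

/-- Directional derivatives of the equations. -/
theorem hasDerivAt_FF (x v : E) : HasDerivAt (fun t : ℝ => FF (x + t • v)) (fderiv ℝ FF x v) 0 := by
  have h1 : HasFDerivAt FF (fderiv ℝ FF x) (x + (0 : ℝ) • v) := by
    rw [zero_smul, add_zero]
    exact (contDiff_FF.differentiable (by simp) x).hasFDerivAt
  have h2 : HasDerivAt (fun s : ℝ => x + s • v) v 0 := by
    simpa using ((hasDerivAt_id (0 : ℝ)).smul_const v).const_add x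
  exact HasFDerivAt.comp_hasDerivAt (f := fun s : ℝ => x + s • v) 0 h1 h2

theorem fderiv_FF_fst (x v : E) (c : ℝ)
    (h : HasDerivAt (fun t : ℝ => (FF (x + t • v)).1) c 0) : (fderiv ℝ FF x v).1 = c := by
  have h1 : HasDerivAt (fun t : ℝ => (FF (x + t • v)).1) (fderiv ℝ FF x v).1 0 :=
    HasFDerivAt.comp_hasDerivAt (f := fun t : ℝ => FF (x + t • v)) 0
      (hasFDerivAt_fst (𝕜 := ℝ) (E := ℝ) (F := ℝ)) (hasDerivAt_FF x v)
  exact h1.unique h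

theorem fderiv_FF_snd (x v : E) (c : ℝ)
    (h : HasDerivAt (fun t : ℝ => (FF (x + t • v)).2) c 0) : (fderiv ℝ FF x v).2 = c := by
  have h1 : HasDerivAt (fun t : ℝ => (FF (x + t • v)).2) (fderiv ℝ FF x v).2 0 :=
    HasFDerivAt.comp_hasDerivAt (f := fun t : ℝ => FF (x + t • v)) 0
      (hasFDerivAt_snd (𝕜 := ℝ) (E := ℝ) (F := ℝ)) (hasDerivAt_FF x v)
  exact h1.unique h

theorem hasDerivAt_scale (z : ℂ) : HasDerivAt (fun t : ℝ => ‖z + t • z‖ ^ 2) (2 * ‖z‖ ^ 2) 0 := by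
  have h1 : (fun t : ℝ => ‖z + t • z‖ ^ 2) = fun t : ℝ => (1 + t) ^ 2 * ‖z‖ ^ 2 := by
    funext t
    have : z + t • z = (1 + t) • z := by module
    rw [this, norm_smul, mul_pow, Real.norm_eq_abs, sq_abs]
  rw [h1]
  have h2 : HasDerivAt (fun t : ℝ => 1 + t) 1 0 := (hasDerivAt_id (0 : ℝ)).const_add 1
  refine ((h2.pow 2).mul_const _).congr_deriv ?_
  norm_num

/-- The radial vector in the second factor. -/
theorem fderiv_FF_second (x : E) : fderiv ℝ FF x (0, x.2.1, 0) = (2 * ‖x.2.1‖ ^ 2, 0) := by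
  refine Prod.ext (fderiv_FF_fst _ _ _ ?_) (fderiv_FF_snd _ _ _ ?_)
  · have h1 := (((hasDerivAt_scale x.2.1).sub_const 1).add_const
      (1 / 8 * (‖x.1‖ ^ 2 - 1) * x.1.re))
    refine h1.congr_of_eventuallyEq (Eventually.of_forall fun t => ?_)
    simp [FF]
  · have h1 := hasDerivAt_const (0 : ℝ)
      ((‖x.1‖ ^ 2 - 2) ^ 2 + Real.exp 1 * expNegInvGlue (‖x.2.2‖ ^ 2 - 1) - 1)
    refine h1.congr_of_eventuallyEq (Eventually.of_forall fun t => ?_)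
    simp [FF]

theorem fderiv_FF_first_snd (x : E) :
    (fderiv ℝ FF x (x.1, 0, 0)).2 = 2 * (‖x.1‖ ^ 2 - 2) * (2 * ‖x.1‖ ^ 2) := by
  refine fderiv_FF_snd _ _ _ ?_
  have h1 := ((((hasDerivAt_scale x.1).sub_const 2).pow 2).add_const
    (Real.exp 1 * expNegInvGlue (‖x.2.2‖ ^ 2 - 1))).sub_const 1
  refine (h1.congr_of_eventuallyEq (Eventually.of_forall fun t => ?_)).congr_deriv ?_
  · simp [FF]
  · simp

theorem fderiv_FF_third_snd (x : E) (hx : ‖x.2.2‖ ^ 2 = 2) :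
    (fderiv ℝ FF x (0, 0, x.2.2)).2 = 4 := by
  refine fderiv_FF_snd _ _ _ ?_
  have h0 : HasDerivAt (fun t : ℝ => ‖x.2.2 + t • x.2.2‖ ^ 2 - 1) (2 * ‖x.2.2‖ ^ 2) 0 :=
    (hasDerivAt_scale x.2.2).sub_const 1
  have e0 : ‖x.2.2 + (0 : ℝ) • x.2.2‖ ^ 2 - 1 = 1 := by
    rw [zero_smul, add_zero, hx]; norm_num
  have h2 : HasDerivAt expNegInvGlue (Real.exp (-1)) (‖x.2.2 + (0 : ℝ) • x.2.2‖ ^ 2 - 1) := by
    rw [e0]; exact hasDerivAt_gg_one
  have h3 : HasDerivAt (fun t : ℝ => expNegInvGlue (‖x.2.2 + t • x.2.2‖ ^ 2 - 1))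
      (Real.exp (-1) * (2 * ‖x.2.2‖ ^ 2)) 0 := 
    HasDerivAt.comp (h := fun t : ℝ => ‖x.2.2 + t • x.2.2‖ ^ 2 - 1) (0 : ℝ) h2 h0
  have h4 := ((h3.const_mul (Real.exp 1)).const_add ((‖x.1‖ ^ 2 - 2) ^ 2)).sub_const 1
  refine (h4.congr_of_eventuallyEq (Eventually.of_forall fun t => ?_)).congr_deriv ?_
  · simp [FF]
  · rw [hx, ← mul_assoc, ← Real.exp_add]
    norm_num

theorem surjective_fderiv_FF {x : E} (hx : x ∈ KK) : Function.Surjective (fderiv ℝ FF x) := by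
  obtain ⟨b1, b2, b3, b4, b5⟩ := KK_bounds hx
  have hu := fderiv_FF_second x
  obtain ⟨v, hv⟩ : ∃ v, (fderiv ℝ FF x v).2 ≠ 0 := by
    by_cases h : ‖x.1‖ ^ 2 - 2 = 0
    · refine ⟨(0, 0, x.2.2), ?_⟩
      obtain ⟨h1, h2⟩ := mem_KK.1 hx
      rw [h] at h2
      have h3 : Real.exp 1 * expNegInvGlue (‖x.2.2‖ ^ 2 - 1) = 1 := by linarith
      have h4 := gg_eq_one h3
      rw [fderiv_FF_third_snd x (by linarith)]
      norm_num
    · refine ⟨(x.1, 0, 0), ?_⟩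
      rw [fderiv_FF_first_snd]
      have : 2 * ‖x.1‖ ^ 2 ≠ 0 := by positivity
      exact mul_ne_zero (mul_ne_zero two_ne_zero h) (by linarith)
  rintro ⟨a, c⟩
  set α := (fderiv ℝ FF x v).1
  set β := (fderiv ℝ FF x v).2
  refine ⟨((a - c / β * α) / (2 * ‖x.2.1‖ ^ 2)) • ((0, x.2.1, 0) : E) + (c / β) • v, ?_⟩
  rw [map_add, map_smul, map_smul, hu]
  have hne : 2 * ‖x.2.1‖ ^ 2 ≠ 0 := by linarith
  refine Prod.ext ?_ ?_
  · change (a - c / β * α) / (2 * ‖x.2.1‖ ^ 2) * (2 * ‖x.2.1‖ ^ 2) + c / β * α = a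
    rw [div_mul_cancel₀ _ hne]
    ring
  · change (a - c / β * α) / (2 * ‖x.2.1‖ ^ 2) * 0 + c / β * β = c
    rw [mul_zero, zero_add, div_mul_cancel₀ _ hv]

/-- The special point. -/
def x₁ : E := (Complex.I * (Real.sqrt 3 : ℝ), 1, 0)

theorem x₁_mem : x₁ ∈ KK := by
  rw [mem_KK]
  have h3 : Real.sqrt 3 ^ 2 = 3 := Real.sq_sqrt (by norm_num)
  have h1 : ‖(x₁).1‖ ^ 2 = 3 := by
    simp only [x₁]
    rw [norm_mul, Complex.norm_I, one_mul, Complex.norm_real, Real.norm_eq_abs, sq_abs, h3]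
  have h2 : (x₁).1.re = 0 := by simp [x₁]
  have h4 : ‖(x₁).2.1‖ = 1 := by simp [x₁]
  have h5 : ‖(x₁).2.2‖ = 0 := by simp [x₁]
  rw [h1, h2, h4, h5, expNegInvGlue.zero_of_nonpos (by norm_num)]
  norm_num

theorem fderiv_FF_x₁_fst : (fderiv ℝ FF x₁ (1, 0, 0)).1 = 1 / 4 := by
  refine fderiv_FF_fst _ _ _ ?_
  have h3 : Real.sqrt 3 ^ 2 = 3 := Real.sq_sqrt (by norm_num)
  have h0 : HasDerivAt (fun t : ℝ => (1 / 8 : ℝ) * (t ^ 2 + 2) * t) (1 / 4) 0 := by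
    have h1 : HasDerivAt (fun t : ℝ => t) 1 (0 : ℝ) := hasDerivAt_id (0 : ℝ)
    have h2 := (((h1.pow 2).add_const 2).const_mul (1 / 8 : ℝ)).mul h1
    refine h2.congr_deriv ?_
    norm_num
  refine h0.congr_of_eventuallyEq (Eventually.of_forall fun t => ?_)
  simp only [FF, x₁, Prod.fst_add, Prod.snd_add, Prod.smul_fst, Prod.smul_snd, smul_zero, add_zero]
  rw [Complex.sq_norm, Complex.sq_norm, Complex.normSq_apply, Complex.normSq_apply]
  simp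
  left
  ring

theorem fderiv_FF_x₁_snd (w : E) : (fderiv ℝ FF x₁ w).2 = 4 * Real.sqrt 3 * w.1.im := by
  refine fderiv_FF_snd _ _ _ ?_
  have h3 : Real.sqrt 3 ^ 2 = 3 := Real.sq_sqrt (by norm_num)
  have h1 : HasDerivAt (fun t : ℝ => ((t * w.1.re) ^ 2 + (Real.sqrt 3 + t * w.1.im) ^ 2 - 2) ^ 2
      + Real.exp 1 * 0 - 1) (4 * Real.sqrt 3 * w.1.im) 0 := by
    have h1 : HasDerivAt (fun t : ℝ => t) 1 (0 : ℝ) := hasDerivAt_id (0 : ℝ)
    have h2 := ((((((h1.mul_const w.1.re).pow 2).add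
      (((h1.mul_const w.1.im).const_add (Real.sqrt 3)).pow 2)).sub_const 2).pow 2).add_const
      (Real.exp 1 * 0)).sub_const 1
    refine h2.congr_deriv ?_
    simp only [Pi.add_apply, Pi.pow_apply]
    norm_num
    ring
  refine h1.congr_of_eventuallyEq ?_
  have hev : ∀ᶠ t : ℝ in 𝓝 0, ‖(0 : ℂ) + t • w.2.2‖ ^ 2 - 1 < 0 := by
    have hc : Continuous fun t : ℝ => ‖(0 : ℂ) + t • w.2.2‖ ^ 2 - 1 := by fun_prop
    refine hc.continuousAt.eventually_lt continuousAt_const ?_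
    simp
  filter_upwards [hev] with t ht
  have e1 : ‖(x₁ + t • w).1‖ ^ 2 = (t * w.1.re) ^ 2 + (Real.sqrt 3 + t * w.1.im) ^ 2 := by
    rw [Complex.sq_norm, Complex.normSq_apply]
    simp [x₁]
    ring
  have e2 : (x₁ + t • w).2.2 = 0 + t • w.2.2 := by simp [x₁]
  simp only [FF]
  rw [e1, e2, expNegInvGlue.zero_of_nonpos ht.le]

/-- The function `1 - e g(|z|² - 1)`. -/
def hh (z : ℂ) : ℝ := 1 - Real.exp 1 * expNegInvGlue (‖z‖ ^ 2 - 1)

/-- The modulus of the first coordinate on the sheet `σ`. -/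
def aa (σ : ℝ) (z : ℂ) : ℝ := Real.sqrt (2 + σ * Real.sqrt (hh z))

/-- The squared modulus of the second coordinate. -/
def qq (a c : ℝ) : ℝ := 1 - 1 / 8 * (a ^ 2 - 1) * (a * c)

/-- The parametrization of the sheet `σ`. -/
def sheet (σ : ℝ) (p : ℂ × ℝ × ℝ) : E :=
  (((aa σ p.1 : ℝ) : ℂ) * Complex.exp (p.2.1 * Complex.I),
    ((Real.sqrt (qq (aa σ p.1) (Real.cos p.2.1)) : ℝ) : ℂ) * Complex.exp (p.2.2 * Complex.I), p.1)

theorem continuous_hh : Continuous hh := by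
  unfold hh
  have : Continuous expNegInvGlue := (expNegInvGlue.contDiff (n := 0)).continuous
  fun_prop

theorem continuous_sheet (σ : ℝ) : Continuous (sheet σ) := by
  have h1 : Continuous (aa σ) := by
    unfold aa
    have := continuous_hh
    fun_prop
  have h2 : Continuous fun p : ℂ × ℝ × ℝ => aa σ p.1 := h1.comp continuous_fst
  have h3 : Continuous fun p : ℂ × ℝ × ℝ => Real.sqrt (qq (aa σ p.1) (Real.cos p.2.1)) := by
    unfold qq
    fun_prop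
  unfold sheet
  fun_prop

theorem hh_mem {z : ℂ} (hz : ‖z‖ ≤ Real.sqrt 2) : 0 ≤ hh z ∧ hh z ≤ 1 := by
  have h1 : ‖z‖ ^ 2 ≤ 2 := by
    have := pow_le_pow_left₀ (norm_nonneg z) hz 2
    rwa [Real.sq_sqrt (by norm_num)] at this
  have h2 := gg_of_le_one (s := ‖z‖ ^ 2 - 1) (by linarith)
  have h3 := gg_nonneg (‖z‖ ^ 2 - 1)
  unfold hh
  constructor <;> linarith

theorem aa_sq {σ : ℝ} (hσ : σ = 1 ∨ σ = -1) {z : ℂ} (hz : ‖z‖ ≤ Real.sqrt 2) :
    aa σ z ^ 2 = 2 + σ * Real.sqrt (hh z) ∧ 1 ≤ aa σ z ^ 2 ∧ aa σ z ^ 2 ≤ 3 := by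
  obtain ⟨h1, h2⟩ := hh_mem hz
  have h3 : Real.sqrt (hh z) ≤ 1 := Real.sqrt_le_one.2 h2
  have h4 := Real.sqrt_nonneg (hh z)
  have h5 : 0 ≤ 2 + σ * Real.sqrt (hh z) := by
    rcases hσ with rfl | rfl <;> linarith
  have h6 : aa σ z ^ 2 = 2 + σ * Real.sqrt (hh z) := Real.sq_sqrt h5
  rw [h6]
  rcases hσ with rfl | rfl <;> exact ⟨rfl, by linarith, by linarith⟩

theorem qq_nonneg {a c : ℝ} (ha0 : 0 ≤ a) (ha1 : 1 ≤ a ^ 2) (ha : a ^ 2 ≤ 3) (hc : |c| ≤ 1) :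
    0 ≤ qq a c := by
  have h1 := abs_le.1 hc
  have h2 : a ≤ 2 := by nlinarith
  have h3 : a * c ≤ 2 := by nlinarith
  unfold qq
  nlinarith

theorem sheet_mem {σ : ℝ} (hσ : σ = 1 ∨ σ = -1) {p : ℂ × ℝ × ℝ} (hp : ‖p.1‖ ≤ Real.sqrt 2) :
    sheet σ p ∈ KK := by
  obtain ⟨a1, a2, a3⟩ := aa_sq hσ hp
  have a0 : 0 ≤ aa σ p.1 := Real.sqrt_nonneg _
  have q0 := qq_nonneg a0 a2 a3 (Real.abs_cos_le_one p.2.1)
  have n1 : ‖(sheet σ p).1‖ ^ 2 = aa σ p.1 ^ 2 := by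
    simp only [sheet]
    rw [norm_mul, Complex.norm_exp_ofReal_mul_I, mul_one, Complex.norm_real, Real.norm_eq_abs,
      sq_abs]
  have n2 : ‖(sheet σ p).2.1‖ ^ 2 = qq (aa σ p.1) (Real.cos p.2.1) := by
    simp only [sheet]
    rw [norm_mul, Complex.norm_exp_ofReal_mul_I, mul_one, Complex.norm_real, Real.norm_eq_abs,
      sq_abs, Real.sq_sqrt q0]
  have n3 : (sheet σ p).1.re = aa σ p.1 * Real.cos p.2.1 := by
    simp only [sheet]
    rw [Complex.re_ofReal_mul, Complex.exp_ofReal_mul_I_re]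
  have n4 : (sheet σ p).2.2 = p.1 := rfl
  rw [mem_KK, n1, n2, n3, n4]
  refine ⟨by unfold qq; ring, ?_⟩
  rw [a1]
  have h5 : Real.sqrt (hh p.1) ^ 2 = hh p.1 := Real.sq_sqrt (hh_mem hp).1
  have h6 : σ ^ 2 = 1 := by rcases hσ with rfl | rfl <;> norm_num
  have h7 : (2 + σ * Real.sqrt (hh p.1) - 2) ^ 2 = hh p.1 := by
    rw [add_sub_cancel_left, mul_pow, h5, h6, one_mul]
  rw [h7]
  unfold hh
  ring

/-- The domain of the parametrizations. -/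
def dom : Set (ℂ × ℝ × ℝ) := Metric.closedBall (0 : ℂ) (Real.sqrt 2) ×ˢ univ

theorem isConnected_dom : IsConnected dom := by
  refine IsConnected.prod ?_ isConnected_univ
  exact (convex_closedBall _ _).isConnected ⟨0, by simp⟩

theorem KK_eq : KK = sheet 1 '' dom ∪ sheet (-1) '' dom := by
  apply Subset.antisymm
  · intro x hx
    obtain ⟨b1, b2, b3, b4, b5⟩ := KK_bounds hx
    obtain ⟨h1, h2⟩ := mem_KK.1 hx
    have hz : ‖x.2.2‖ ≤ Real.sqrt 2 := Real.le_sqrt_of_sq_le b3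
    have hh1 : (‖x.1‖ ^ 2 - 2) ^ 2 = hh x.2.2 := by unfold hh; linarith
    have hd : (x.2.2, Complex.arg x.1, Complex.arg x.2.1) ∈ dom := by
      refine ⟨?_, trivial⟩
      rw [mem_closedBall_zero_iff]
      exact hz
    have main : ∀ σ : ℝ, ‖x.1‖ ^ 2 - 2 = σ * Real.sqrt (hh x.2.2) →
        sheet σ (x.2.2, Complex.arg x.1, Complex.arg x.2.1) = x := by
      intro σ hs
      have ha : aa σ x.2.2 = ‖x.1‖ := by
        unfold aa
        rw [← hs]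
        have : 2 + (‖x.1‖ ^ 2 - 2) = ‖x.1‖ ^ 2 := by ring
        rw [this, Real.sqrt_sq (norm_nonneg _)]
      have hre : ‖x.1‖ * Real.cos (Complex.arg x.1) = x.1.re := Complex.norm_mul_cos_arg x.1
      have hq : Real.sqrt (qq ‖x.1‖ (Real.cos (Complex.arg x.1))) = ‖x.2.1‖ := by
        have : qq ‖x.1‖ (Real.cos (Complex.arg x.1)) = ‖x.2.1‖ ^ 2 := by
          unfold qq
          rw [hre]
          linarith
        rw [this, Real.sqrt_sq (norm_nonneg _)]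
      unfold sheet
      simp only []
      rw [ha, hq, Complex.norm_mul_exp_arg_mul_I, Complex.norm_mul_exp_arg_mul_I]
    have hs0 : Real.sqrt (hh x.2.2) = |‖x.1‖ ^ 2 - 2| := by
      rw [← hh1, Real.sqrt_sq_eq_abs]
    rcases le_total 0 (‖x.1‖ ^ 2 - 2) with h | h
    · left
      exact ⟨_, hd, main 1 (by rw [hs0, abs_of_nonneg h, one_mul])⟩
    · right
      exact ⟨_, hd, main (-1) (by rw [hs0, abs_of_nonpos h]; ring)⟩
  · have hdom : ∀ p ∈ dom, ‖p.1‖ ≤ Real.sqrt 2 := fun p hp => mem_closedBall_zero_iff.1 hp.1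
    rintro x (⟨p, hp, rfl⟩ | ⟨p, hp, rfl⟩)
    · exact sheet_mem (Or.inl rfl) (hdom p hp)
    · exact sheet_mem (Or.inr rfl) (hdom p hp)

theorem isConnected_KK : IsConnected KK := by
  rw [KK_eq]
  refine IsConnected.union ?_ (isConnected_dom.image _ (continuous_sheet 1).continuousOn)
    (isConnected_dom.image _ (continuous_sheet (-1)).continuousOn)
  have hd : (((Real.sqrt 2 : ℝ) : ℂ), (0 : ℝ), (0 : ℝ)) ∈ dom := by
    refine ⟨?_, trivial⟩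
    rw [mem_closedBall_zero_iff, Complex.norm_real, Real.norm_eq_abs,
      abs_of_nonneg (Real.sqrt_nonneg _)]
  have hh0 : hh ((Real.sqrt 2 : ℝ) : ℂ) = 0 := by
    unfold hh
    rw [Complex.norm_real, Real.norm_eq_abs, sq_abs, Real.sq_sqrt (by norm_num)]
    have : (2 : ℝ) - 1 = 1 := by norm_num
    rw [this, gg_one, sub_self]
  have haa : aa 1 ((Real.sqrt 2 : ℝ) : ℂ) = aa (-1) ((Real.sqrt 2 : ℝ) : ℂ) := by
    unfold aa
    rw [hh0]
    simp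
  refine ⟨sheet 1 (((Real.sqrt 2 : ℝ) : ℂ), 0, 0), mem_image_of_mem _ hd, ?_⟩
  refine ⟨_, hd, ?_⟩
  unfold sheet
  simp only []
  rw [haa]

end

end Pool.Agent.V11199.HP
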